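import Mathlib
import Pool.Agent.W301.LinI3
import Pool.Agent.W222.UABC.PerField

/-!
# Summation over the number fields of degree `n`
-/

set_option autoImplicit false

namespace Pool.Agent.W222.UABC

open NumberField Finset

/-- an exponential sum over a family which is not too dense -/
theorem exp_sum {ι : Type*} (F : Finset ι) (d : ι → ℝ) (C e α Y : ℝ) (hC : 0 ≤ C) (he : 0 ≤ e)
    (hα : 0 ≤ α) (hY : 0 ≤ Y) (h0 : ∀ a ∈ F, 0 ≤ d a) (h1 : ∀ a ∈ F, d a ≤ Y)
    (hF : ∀ s : ℝ, 0 ≤ s → (({a ∈ F | d a ≤ s} : Finset ι).card : ℝ) ≤ C * Real.exp (e * s)) :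
    ∑ a ∈ F, Real.exp (-(α * d a)) ≤ C * Real.exp e * (Y + 1) * Real.exp (max (e - α) 0 * Y) := by
  classical
  have hmaps : ∀ a ∈ F, ⌊d a⌋₊ ∈ Finset.range (⌊Y⌋₊ + 1) := by
    intro a ha
    rw [Finset.mem_range, Nat.lt_succ_iff]
    exact Nat.floor_le_floor (h1 a ha)
  rw [← Finset.sum_fiberwise_of_maps_to hmaps]
  have hj : ∀ j ∈ Finset.range (⌊Y⌋₊ + 1), ∑ a ∈ F with ⌊d a⌋₊ = j, Real.exp (-(α * d a)) ≤
      C * Real.exp e * Real.exp (max (e - α) 0 * Y) := by
    intro j hj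
    have hjY : (j : ℝ) ≤ Y := by
      have h2 : j ≤ ⌊Y⌋₊ := Nat.lt_succ_iff.1 (Finset.mem_range.1 hj)
      exact (Nat.le_floor_iff hY).1 h2
    have h3 : ∑ a ∈ F with ⌊d a⌋₊ = j, Real.exp (-(α * d a)) ≤
        ∑ _a ∈ F with ⌊d _a⌋₊ = j, Real.exp (-(α * j)) := by
      refine Finset.sum_le_sum fun a ha => ?_
      obtain ⟨haF, haj⟩ := Finset.mem_filter.1 ha
      apply Real.exp_le_exp.2
      have h4 : (j : ℝ) ≤ d a := by
        rw [← haj]
        exact Nat.floor_le (h0 a haF)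
      have := mul_le_mul_of_nonneg_left h4 hα
      linarith
    rw [Finset.sum_const, nsmul_eq_mul] at h3
    have h5 : ((F.filter fun a => ⌊d a⌋₊ = j).card : ℝ) ≤ C * Real.exp (e * (j + 1)) := by
      refine le_trans ?_ (hF (j + 1) (by positivity))
      have : (F.filter fun a => ⌊d a⌋₊ = j) ⊆ {a ∈ F | d a ≤ j + 1} := by
        intro a ha
        obtain ⟨haF, haj⟩ := Finset.mem_filter.1 ha
        refine Finset.mem_filter.2 ⟨haF, ?_⟩
        have := Nat.lt_floor_add_one (d a)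
        rw [haj] at this
        exact this.le
      exact_mod_cast Finset.card_le_card this
    refine h3.trans ?_
    calc ((F.filter fun a => ⌊d a⌋₊ = j).card : ℝ) * Real.exp (-(α * j))
        ≤ C * Real.exp (e * (j + 1)) * Real.exp (-(α * j)) :=
          mul_le_mul_of_nonneg_right h5 (Real.exp_pos _).le
      _ = C * Real.exp e * Real.exp ((e - α) * j) := by
          rw [mul_assoc, ← Real.exp_add, mul_assoc, ← Real.exp_add]
          congr 2
          ring
      _ ≤ C * Real.exp e * Real.exp (max (e - α) 0 * Y) := by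
          refine mul_le_mul_of_nonneg_left (Real.exp_le_exp.2 ?_) (by positivity)
          have h6 : (0 : ℝ) ≤ j := Nat.cast_nonneg j
          calc (e - α) * j ≤ max (e - α) 0 * j :=
                mul_le_mul_of_nonneg_right (le_max_left _ _) h6
            _ ≤ max (e - α) 0 * Y := mul_le_mul_of_nonneg_left hjY (le_max_right _ _)
  refine (Finset.sum_le_sum hj).trans ?_
  rw [Finset.sum_const, Finset.card_range, nsmul_eq_mul]
  have h7 : ((⌊Y⌋₊ + 1 : ℕ) : ℝ) ≤ Y + 1 := by
    push_cast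
    have := Nat.floor_le hY
    linarith
  calc ((⌊Y⌋₊ + 1 : ℕ) : ℝ) * (C * Real.exp e * Real.exp (max (e - α) 0 * Y))
      ≤ (Y + 1) * (C * Real.exp e * Real.exp (max (e - α) 0 * Y)) :=
        mul_le_mul_of_nonneg_right h7 (by positivity)
    _ = _ := by ring

end Pool.Agent.W222.UABC
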