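import Mathlib
import Pool.Agent.W223.AK.Final
import Pool.Agent.W222.UABC.FieldSum

/-!
# Few violations of the uniform abc inequality in every degree
-/

set_option autoImplicit false

namespace Pool.Agent.W222.UABC

open NumberField IsDedekindDomain Finset Pool.Agent.H691R3 Pool.Agent.W223.AK
open Pool.Agent.W301.Lin

section Defs

variable {K : Type} [Field K] [NumberField K]

/-- the logarithm of the height `H` -/
noncomputable def height (x : Fin 3 → K) : ℝ :=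
  (∑ w : InfinitePlace K, (w.mult : ℝ) * Real.log (max (w (x 0)) (max (w (x 1)) (w (x 2)))) +
    ∑ᶠ v : HeightOneSpectrum (𝓞 K), Real.log
      (max (FinitePlace.mk v (x 0)) (max (FinitePlace.mk v (x 1)) (FinitePlace.mk v (x 2))))) /
    (Module.finrank ℚ K : ℝ)

/-- the logarithm of the conductor `N` -/
noncomputable def conductor (x : Fin 3 → K) : ℝ :=
  (∑ᶠ (v : HeightOneSpectrum (𝓞 K)) (_ : ¬ (FinitePlace.mk v (x 0) = FinitePlace.mk v (x 1) ∧
      FinitePlace.mk v (x 1) = FinitePlace.mk v (x 2))),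
    Real.log (Ideal.absNorm v.asIdeal : ℝ)) / (Module.finrank ℚ K : ℝ)

variable (K) in
/-- the logarithm of the root discriminant `δ_K` -/
noncomputable def rootDisc : ℝ := Real.log |(NumberField.discr K : ℝ)| / (Module.finrank ℚ K : ℝ)

end Defs

/-- the violations -/
def Viol (n : ℕ) (κ c B : ℝ) :
    Set (IntermediateField ℚ (AlgebraicClosure ℚ) × AlgebraicClosure ℚ) :=
  {p | ∃ (_ : NumberField p.1) (x : p.1), (x : AlgebraicClosure ℚ) = p.2 ∧
    Module.finrank ℚ p.1 = n ∧ x ≠ 0 ∧ x ≠ 1 ∧ height ![x, 1 - x, -1] ≤ Real.log B ∧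
    c + κ * (rootDisc p.1 + conductor ![x, 1 - x, -1]) < height ![x, 1 - x, -1]}

/-- the fields of degree `n` in terms of the exponent `e n` -/
theorem linnik : ∃ e : ℕ → ℝ,
    (∀ c : ℝ, 1 / (8 * (Real.log 2) ^ 2) < c →
      ∀ᶠ n : ℕ in Filter.atTop, e n ≤ c * (Real.log n) ^ 2) ∧ (∀ n, 2 / 3 ≤ e n) ∧
    ∀ n : ℕ, 2 ≤ n → ∃ C : ℝ, 0 < C ∧ ∀ X : ℝ, 1 ≤ X →
        (FS ℚ n X).Finite ∧ ((FS ℚ n X).ncard : ℝ) ≤ C * X ^ e n := by
  set G : ℕ → Set ℝ := fun n => {x | ∃ r d u m t : ℕ, 0 < r ∧ t ≤ n ∧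
      (r + 1) * n ≤ (r + d).choose r ∧ n * (n - t) ^ m < n ^ m ∧ m ≤ 2 ^ u ∧ x = Ex n r d u t}
    with hG
  have hne : ∀ n : ℕ, 2 ≤ n → (G n).Nonempty := by
    intro n hn
    refine ⟨_, 1, 2 * n - 1, 0, 1, n, one_pos, le_rfl, ?_, ?_, ?_, rfl⟩
    · rw [Nat.choose_one_right]
      omega
    · simp
      omega
    · simp
  have hbd : ∀ n, BddBelow (G n) := by
    intro n
    refine ⟨0, ?_⟩
    rintro x ⟨r, d, u, m, t, -, -, -, -, -, rfl⟩
    unfold Ex
    positivity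
  have hnn : ∀ n, 0 ≤ sInf (G n) := by
    intro n
    refine Real.sInf_nonneg ?_
    rintro x ⟨r, d, u, m, t, -, -, -, -, -, rfl⟩
    unfold Ex
    positivity
  refine ⟨fun n => sInf (G n) + 1, ?_, ?_, ?_⟩
  · intro c hc
    obtain ⟨c', hc1, hc2⟩ := exists_between hc
    have hlog : Filter.Tendsto (fun n : ℕ => Real.log n) Filter.atTop Filter.atTop :=
      Real.tendsto_log_atTop.comp tendsto_natCast_atTop_atTop
    have h1 : Filter.Tendsto (fun n : ℕ => (c - c') * (Real.log n) ^ 2) Filter.atTop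
        Filter.atTop :=
      Filter.Tendsto.const_mul_atTop (sub_pos.2 hc2)
        ((Filter.tendsto_pow_atTop two_ne_zero).comp hlog)
    filter_upwards [eventually_good c' hc1, h1.eventually_ge_atTop 1] with n hn1 hn2
    obtain ⟨r, d, u, m, t, h2, h3, h4, h5, h6, h7⟩ := hn1
    have h8 : sInf (G n) ≤ Ex n r d u t :=
      csInf_le (hbd n) ⟨r, d, u, m, t, h2, h3, h4, h5, h6, rfl⟩
    linarith
  · intro n
    have := hnn n
    show (2 : ℝ) / 3 ≤ sInf (G n) + 1
    linarith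
  · intro n hn
    obtain ⟨x, hx, hxlt⟩ := exists_lt_of_csInf_lt (hne n hn) (lt_add_one (sInf (G n)))
    obtain ⟨r, d, u, m, t, h2, h3, h4, h5, h6, rfl⟩ := hx
    obtain ⟨C, hC⟩ := card_FS_le_rpow n r d u m t 1 (by omega) h2 h3 h4 h5 h6
    refine ⟨|C| + 1, by positivity, ?_⟩
    intro X hX
    obtain ⟨h7, h8⟩ := hC ℚ (Module.finrank_self ℚ) X hX
    refine ⟨h7, h8.trans ?_⟩
    calc C * X ^ Ex n r d u t ≤ (|C| + 1) * X ^ Ex n r d u t := by
          gcongr
          exact (le_abs_self C).trans (by linarith)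
      _ ≤ (|C| + 1) * X ^ (sInf (G n) + 1) := by
          gcongr

section OneField

variable {K : Type} [Field K] [NumberField K]

theorem one_le_disc : (1 : ℝ) ≤ |(NumberField.discr K : ℝ)| := by
  have h0 : NumberField.discr K ≠ 0 := NumberField.discr_ne_zero K
  have : (1 : ℤ) ≤ |NumberField.discr K| := Int.one_le_abs h0
  have h : ((1 : ℤ) : ℝ) ≤ ((|NumberField.discr K| : ℤ) : ℝ) := Int.cast_le.mpr this
  rw [Int.cast_abs] at h
  simpa using h

theorem R3_empty (x : Fin 3 → K) : (Module.finrank ℚ K : ℝ) * conductor x = R3 ∅ x := by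
  have hn : (Module.finrank ℚ K : ℝ) ≠ 0 := by
    exact_mod_cast (Module.finrank_pos (R := ℚ) (M := K)).ne'
  unfold conductor R3
  rw [mul_div_cancel₀ _ hn]
  refine finsum_congr fun v => ?_
  simp only [Set.mem_empty_iff_false, not_false_eq_true, true_and]

theorem H3_height (x : Fin 3 → K) : (Module.finrank ℚ K : ℝ) * height x = H3 x := by
  have hn : (Module.finrank ℚ K : ℝ) ≠ 0 := by
    exact_mod_cast (Module.finrank_pos (R := ℚ) (M := K)).ne'
  unfold height H3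
  rw [mul_div_cancel₀ _ hn]

end OneField

/-- the violations over one field -/
theorem viol_field (n : ℕ) {ε : ℝ} (hε : 0 < ε) : ∃ D : ℝ, 0 < D ∧
    ∀ (K : Type) [Field K] [NumberField K], Module.finrank ℚ K = n →
      ∀ (X Y : ℝ) (E : Finset K), 0 ≤ X →
        (∀ x ∈ E, x ≠ 0 ∧ x ≠ 1 ∧ (n : ℝ) * height ![x, 1 - x, -1] ≤ X ∧
          (n : ℝ) * conductor ![x, 1 - x, -1] ≤ Y) →
        (E.card : ℝ) ≤ D * Real.exp (2 / 3 * Y + ε * X) := by
  classical
  obtain ⟨D, hD, h⟩ := per_field n hε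
  refine ⟨D, hD, ?_⟩
  intro K _ _ hK X Y E hX hE
  have hinj : Set.InjOn (fun x : K => x / (1 - x)) (E : Set K) := by
    intro x hx y hy hxy
    have h1 : (1 : K) - x ≠ 0 := sub_ne_zero.2 (hE x (Finset.mem_coe.1 hx)).2.1.symm
    have h2 : (1 : K) - y ≠ 0 := sub_ne_zero.2 (hE y (Finset.mem_coe.1 hy)).2.1.symm
    simp only at hxy
    rw [div_eq_div_iff h1 h2] at hxy
    linear_combination hxy
  rw [← Finset.card_image_of_injOn hinj]
  refine h K hK X Y _ hX ?_
  intro t ht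
  obtain ⟨x, hx, rfl⟩ := Finset.mem_image.1 ht
  obtain ⟨h0, h1, h2, h3⟩ := hE x hx
  have h1' : (1 : K) - x ≠ 0 := sub_ne_zero.2 h1.symm
  set a : Fin 3 → K := ![x, 1 - x, -1] with ha
  have ha0 : a 0 = x := rfl
  have ha1 : a 1 = 1 - x := rfl
  have ha2 : a 2 = -1 := rfl
  have hs : a 0 + a 1 + a 2 = 0 := by rw [ha0, ha1, ha2]; ring
  have hb := H3_bounds (x := a) (by rw [ha1]; exact h1') hs
  have hPt : Pt (a 0 / a 1) := by
    refine ⟨div_ne_zero (by rw [ha0]; exact h0) (by rw [ha1]; exact h1'), ?_⟩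
    rw [ha0, ha1]
    have : x / (1 - x) + 1 = 1 / (1 - x) := by
      field_simp
      ring
    rw [this]
    exact div_ne_zero one_ne_zero h1'
  obtain ⟨P, hP⟩ := exists_isP ∅ hPt
  have hR := R3_eq (T := ∅) (T' := ∅) (fun v => by simp) (x := a) (by rw [ha1]; exact h1') hs hP
  rw [← hK, H3_height] at h2
  rw [← hK, R3_empty, hR] at h3
  exact ⟨hPt, hb.1.trans h2, P, hP, h3⟩

end Pool.Agent.W222.UABC
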