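import Mathlib
import Pool.Agent.W222.UABC.Main

/-!
# Pairs (field, point) with small radical and small discriminant
-/

set_option autoImplicit false

namespace Pool.Agent.W222.UABC

open NumberField IsDedekindDomain Finset Pool.Agent.H691R3 Pool.Agent.W223.AK
open Pool.Agent.W301.Lin

theorem ncard_le_of {α : Type*} (S : Set α) (b : ℝ)
    (h : ∀ E : Finset α, (E : Set α) ⊆ S → (E.card : ℝ) ≤ b) :
    S.Finite ∧ (S.ncard : ℝ) ≤ b := by
  have hfin : S.Finite := by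
    by_contra hinf
    obtain ⟨t, ht, hcard⟩ := Set.Infinite.exists_subset_card_eq hinf (⌊b⌋₊ + 1)
    have h1 := h t ht
    rw [hcard] at h1
    have h2 := Nat.lt_floor_add_one b
    push_cast at h1
    linarith
  refine ⟨hfin, ?_⟩
  have h1 := h hfin.toFinset (by simp)
  rwa [← Set.ncard_eq_toFinset_card S hfin] at h1

open Classical in
/-- the logarithm of the discriminant, for any intermediate field -/
noncomputable def dd (L : IntermediateField ℚ (AlgebraicClosure ℚ)) : ℝ :=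
  if h : NumberField L then Real.log |((@NumberField.discr L _ h : ℤ) : ℝ)| else 0

theorem dd_eq (L : IntermediateField ℚ (AlgebraicClosure ℚ)) [h : NumberField L] :
    dd L = Real.log |((NumberField.discr L : ℤ) : ℝ)| := by
  unfold dd
  rw [dif_pos h]

theorem conductor_nonneg {K : Type} [Field K] [NumberField K] (x : Fin 3 → K) :
    0 ≤ conductor x :=
  div_nonneg (finsum_nonneg fun _ => finsum_nonneg fun _ => Real.log_natCast_nonneg _)
    (Nat.cast_nonneg _)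

/-- the data of one pair -/
def PD (n : ℕ) (X Y Z : ℝ)
    (p : IntermediateField ℚ (AlgebraicClosure ℚ) × AlgebraicClosure ℚ) : Prop :=
  ∃ (_ : NumberField p.1) (x : p.1), (x : AlgebraicClosure ℚ) = p.2 ∧
      Module.finrank ℚ p.1 = n ∧ x ≠ 0 ∧ x ≠ 1 ∧ (n : ℝ) * height ![x, 1 - x, -1] ≤ X ∧
      (n : ℝ) * conductor ![x, 1 - x, -1] ≤ Y - dd p.1 ∧ 0 ≤ dd p.1 ∧ dd p.1 ≤ Z

theorem pairs_core (n : ℕ) (e : ℝ) (he : 2 / 3 ≤ e) (C : ℝ) (hC : 0 < C)
    (hF : ∀ X : ℝ, 1 ≤ X → (FS ℚ n X).Finite ∧ ((FS ℚ n X).ncard : ℝ) ≤ C * X ^ e)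
    {ε : ℝ} (hε0 : 0 < ε) :
    ∃ D : ℝ, 0 < D ∧ ∀ X Y Z : ℝ, 0 ≤ X → 0 ≤ Z →
      ∀ E : Finset (IntermediateField ℚ (AlgebraicClosure ℚ) × AlgebraicClosure ℚ),
        (∀ p ∈ E, PD n X Y Z p) →
        (E.card : ℝ) ≤ D * (Z + 1) * Real.exp (2 / 3 * Y + ε * X + (e - 2 / 3) * Z) := by
  classical
  obtain ⟨D, hD, hfield⟩ := viol_field n hε0
  refine ⟨D * (C * Real.exp e), by positivity, ?_⟩
  intro X Y Z hX0 hZ0 E hdata
  set F : Finset (IntermediateField ℚ (AlgebraicClosure ℚ)) := E.image Prod.fst with hFd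
  have hcard : (E.card : ℝ) = ∑ L ∈ F, ((E.filter fun p => p.1 = L).card : ℝ) := by
    rw [Finset.card_eq_sum_card_image Prod.fst E]
    push_cast
    rfl
  have hone : ∀ L ∈ F, ((E.filter fun p => p.1 = L).card : ℝ) ≤
      D * Real.exp (2 / 3 * Y + ε * X) * Real.exp (-(2 / 3 * dd L)) := by
    intro L hL
    obtain ⟨p0, hp0, rfl⟩ := Finset.mem_image.1 hL
    obtain ⟨hnf, -, -, hfin, -⟩ := hdata p0 hp0
    set g : AlgebraicClosure ℚ → p0.1 := fun y => if h : y ∈ p0.1 then ⟨y, h⟩ else 0 with hg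
    set G := E.filter fun p => p.1 = p0.1 with hG
    have hGm : ∀ p ∈ G, p ∈ E ∧ p.1 = p0.1 := fun p hp => Finset.mem_filter.1 hp
    have hgx : ∀ p ∈ G, ∃ x : p0.1, (x : AlgebraicClosure ℚ) = p.2 ∧ g p.2 = x ∧ x ≠ 0 ∧ x ≠ 1 ∧
        (n : ℝ) * height ![x, 1 - x, -1] ≤ X ∧
        (n : ℝ) * conductor ![x, 1 - x, -1] ≤ Y - dd p0.1 := by
      rintro ⟨p1, p2⟩ hp
      obtain ⟨hpE, hp1⟩ := hGm _ hp
      simp only at hp1
      subst hp1
      obtain ⟨_, x, hx, _, hx0, hx1, hh, hc, _, _⟩ := hdata _ hpE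
      refine ⟨x, hx, ?_, hx0, hx1, hh, hc⟩
      rw [hg]
      simp only at hx
      simp only
      rw [← hx, dif_pos x.2]
    have hinj : Set.InjOn (fun p : IntermediateField ℚ (AlgebraicClosure ℚ) ×
        AlgebraicClosure ℚ => g p.2) (G : Set _) := by
      intro p hp q hq hpq
      obtain ⟨x, hx, hgx', -⟩ := hgx p (Finset.mem_coe.1 hp)
      obtain ⟨y, hy, hgy', -⟩ := hgx q (Finset.mem_coe.1 hq)
      simp only at hpq
      rw [hgx', hgy'] at hpq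
      refine Prod.ext ((hGm p (Finset.mem_coe.1 hp)).2.trans
        (hGm q (Finset.mem_coe.1 hq)).2.symm) ?_
      rw [← hx, ← hy, hpq]
    rw [← Finset.card_image_of_injOn hinj]
    refine (hfield p0.1 hfin X (Y - dd p0.1) _ hX0 ?_).trans (le_of_eq ?_)
    · intro y hy
      obtain ⟨p, hp, rfl⟩ := Finset.mem_image.1 hy
      obtain ⟨x, -, hgx', hx0, hx1, hh, hc⟩ := hgx p hp
      rw [hgx']
      exact ⟨hx0, hx1, hh, hc⟩
    · rw [mul_assoc, ← Real.exp_add]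
      congr 2
      ring
  have hd0 : ∀ L ∈ F, 0 ≤ dd L := by
    intro L hL
    obtain ⟨p0, hp0, rfl⟩ := Finset.mem_image.1 hL
    obtain ⟨_, _, _, _, _, _, _, _, h, _⟩ := hdata p0 hp0
    exact h
  have hd1 : ∀ L ∈ F, dd L ≤ Z := by
    intro L hL
    obtain ⟨p0, hp0, rfl⟩ := Finset.mem_image.1 hL
    obtain ⟨_, _, _, _, _, _, _, _, _, h⟩ := hdata p0 hp0
    exact h
  have hFs : ∀ s : ℝ, 0 ≤ s → (({a ∈ F | dd a ≤ s} : Finset _).card : ℝ) ≤
      C * Real.exp (e * s) := by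
    intro s hs
    obtain ⟨hf1, hf2⟩ := hF (Real.exp s) (Real.one_le_exp hs)
    have hsub : ((F.filter fun a => dd a ≤ s : Finset (IntermediateField ℚ (AlgebraicClosure ℚ))) :
        Set (IntermediateField ℚ (AlgebraicClosure ℚ))) ⊆ FS ℚ n (Real.exp s) := by
      intro L hL
      obtain ⟨hLF, hLs⟩ := Finset.mem_filter.1 (Finset.mem_coe.1 hL)
      obtain ⟨p0, hp0, rfl⟩ := Finset.mem_image.1 hLF
      obtain ⟨hnf, -, -, hfin, -⟩ := hdata p0 hp0
      refine ⟨hfin, hnf, ?_⟩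
      rw [dd_eq] at hLs
      have h1 : (0 : ℝ) < |((NumberField.discr p0.1 : ℤ) : ℝ)| := by
        have := one_le_disc (K := p0.1)
        linarith
      rw [Real.log_le_iff_le_exp h1] at hLs
      rw [Int.cast_abs]
      exact hLs
    have h1 : (({a ∈ F | dd a ≤ s} : Finset _).card : ℝ) ≤ ((FS ℚ n (Real.exp s)).ncard : ℝ) := by
      rw [← Set.ncard_coe_finset]
      exact_mod_cast Set.ncard_le_ncard hsub hf1
    refine (h1.trans hf2).trans (le_of_eq ?_)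
    rw [← Real.exp_mul, mul_comm s e]
  have hsum := exp_sum F dd C e (2 / 3) Z hC.le (by linarith) (by norm_num) hZ0 hd0 hd1 hFs
  rw [max_eq_left (by linarith : (0 : ℝ) ≤ e - 2 / 3)] at hsum
  calc (E.card : ℝ) = ∑ L ∈ F, ((E.filter fun p => p.1 = L).card : ℝ) := hcard
    _ ≤ ∑ L ∈ F, D * Real.exp (2 / 3 * Y + ε * X) * Real.exp (-(2 / 3 * dd L)) :=
        Finset.sum_le_sum hone
    _ = D * Real.exp (2 / 3 * Y + ε * X) * ∑ L ∈ F, Real.exp (-(2 / 3 * dd L)) := by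
        rw [Finset.mul_sum]
    _ ≤ D * Real.exp (2 / 3 * Y + ε * X) *
          (C * Real.exp e * (Z + 1) * Real.exp ((e - 2 / 3) * Z)) :=
        mul_le_mul_of_nonneg_left hsum (by positivity)
    _ = D * (C * Real.exp e) * (Z + 1) *
          (Real.exp (2 / 3 * Y + ε * X) * Real.exp ((e - 2 / 3) * Z)) := by ring
    _ = _ := by rw [← Real.exp_add]

/-- the data of a violation -/
theorem viol_PD (n : ℕ) (hn : 1 ≤ n) (κ c B : ℝ) (hκ : 0 < κ)
    {p : IntermediateField ℚ (AlgebraicClosure ℚ) × AlgebraicClosure ℚ}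
    (hp : p ∈ Viol n κ c B) :
    PD n (n * Real.log B) ((n * Real.log B + n * |c|) / κ) ((n * Real.log B + n * |c|) / κ) p := by
  have hn0 : (0 : ℝ) < n := by exact_mod_cast hn
  set X : ℝ := n * Real.log B with hX
  set Y : ℝ := (X + n * |c|) / κ with hY
  obtain ⟨hnf, x, hx, hfin, hx0, hx1, hH, hV⟩ := hp
  have hrd : (n : ℝ) * rootDisc p.1 = dd p.1 := by
    rw [dd_eq]
    unfold rootDisc
    rw [hfin, mul_div_cancel₀ _ hn0.ne']
  have h1 : (n : ℝ) * height ![x, 1 - x, -1] ≤ X := mul_le_mul_of_nonneg_left hH hn0.le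
  have h2 : dd p.1 + (n : ℝ) * conductor ![x, 1 - x, -1] ≤ Y := by
    rw [hY, le_div_iff₀ hκ, ← hrd]
    have h3 := mul_le_mul_of_nonneg_left hV.le hn0.le
    have h4 : -(n * |c|) ≤ n * c := by
      have := neg_abs_le c
      nlinarith
    nlinarith
  have h5 : 0 ≤ (n : ℝ) * conductor ![x, 1 - x, -1] :=
    mul_nonneg hn0.le (conductor_nonneg _)
  have h6 : 0 ≤ dd p.1 := by
    rw [dd_eq]
    exact Real.log_nonneg one_le_disc
  exact ⟨hnf, x, hx, hfin, hx0, hx1, h1, by linarith, h6, by linarith⟩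

/-- absorbing a linear factor -/
theorem lin_exp (n : ℕ) (κ c : ℝ) (hκ : 0 < κ) {ε : ℝ} (hε : 0 < ε) : ∃ D : ℝ, 0 < D ∧
    ∀ X : ℝ, 0 ≤ X → (X + n * |c|) / κ + 1 ≤ D * Real.exp (ε * X) := by
  obtain ⟨C2, hC2, hpoly⟩ := poly_exp 1 1 ε le_rfl hε
  set K1 : ℝ := 1 + n * |c| / κ + 1 / κ with hK1
  have hK10 : 0 < K1 := by positivity
  refine ⟨K1 * C2, by positivity, fun X hX0 => ?_⟩
  have h1 := hpoly X hX0
  rw [pow_one] at h1
  have h2 : (X + n * |c|) / κ + 1 ≤ K1 * (1 + 2 * X) := by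
    have e1 : (X + n * |c|) / κ = X / κ + n * |c| / κ := by rw [add_div]
    have h3 : 0 ≤ n * |c| / κ := by positivity
    have h4 : 0 ≤ 1 / κ := by positivity
    have h5 : X / κ = 1 / κ * X := by ring
    rw [e1, h5, hK1]
    nlinarith [mul_nonneg h3 hX0, mul_nonneg h4 hX0]
  rw [mul_assoc]
  exact h2.trans (mul_le_mul_of_nonneg_left h1 hK10.le)

theorem viol_card (n : ℕ) (hn : 1 ≤ n) (e : ℝ) (he : 2 / 3 ≤ e) (C : ℝ) (hC : 0 < C)
    (hF : ∀ X : ℝ, 1 ≤ X → (FS ℚ n X).Finite ∧ ((FS ℚ n X).ncard : ℝ) ≤ C * X ^ e)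
    (κ c δ : ℝ) (hκ : 0 < κ) (hδ : 0 < δ) :
    ∃ M : ℝ, ∀ B : ℝ, 1 ≤ B → (Viol n κ c B).Finite ∧
      ((Viol n κ c B).ncard : ℝ) ≤ M * B ^ ((n : ℝ) * e / κ + δ) := by
  classical
  have hn0 : (0 : ℝ) < n := by exact_mod_cast hn
  set ε : ℝ := δ / (2 * n) with hε
  have hε0 : 0 < ε := by positivity
  obtain ⟨D, hD, hcore⟩ := pairs_core n e he C hC hF hε0
  obtain ⟨D2, hD2, hlin⟩ := lin_exp n κ c hκ hε0
  refine ⟨D * D2 * Real.exp (e * (n * |c| / κ)), ?_⟩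
  intro B hB
  have hB0 : 0 < B := by linarith
  have hlB : 0 ≤ Real.log B := Real.log_nonneg hB
  set X : ℝ := n * Real.log B with hX
  have hX0 : 0 ≤ X := by positivity
  set Y : ℝ := (X + n * |c|) / κ with hY
  have hY0 : 0 ≤ Y := by positivity
  refine ncard_le_of _ _ fun E hE => ?_
  have h1 := hcore X Y Y hX0 hY0 E (fun p hp => viol_PD n hn κ c B hκ (hE (Finset.mem_coe.2 hp)))
  have hY1 := hlin X hX0
  rw [← hY] at hY1
  calc (E.card : ℝ) ≤ _ := h1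
    _ ≤ D * (D2 * Real.exp (ε * X)) * Real.exp (2 / 3 * Y + ε * X + (e - 2 / 3) * Y) := by
        gcongr
    _ = D * D2 * (Real.exp (ε * X) * Real.exp (2 / 3 * Y + ε * X + (e - 2 / 3) * Y)) := by ring
    _ = D * D2 * Real.exp (e * (n * |c| / κ)) * B ^ ((n : ℝ) * e / κ + δ) := by
        rw [Real.rpow_def_of_pos hB0, ← Real.exp_add, mul_assoc (D * _), ← Real.exp_add]
        congr 2
        rw [hY, hX, hε]
        field_simp
        ring

/-- **Few violations of the uniform abc inequality in every degree.** -/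
theorem main_viol : ∃ e : ℕ → ℝ,
    (∀ c : ℝ, 1 / (8 * (Real.log 2) ^ 2) < c →
      ∀ᶠ n : ℕ in Filter.atTop, e n ≤ c * (Real.log n) ^ 2) ∧
    ∀ n : ℕ, 2 ≤ n → ∀ κ c δ : ℝ, 0 < κ → 0 < δ →
      ∃ M : ℝ, ∀ B : ℝ, 1 ≤ B → (Viol n κ c B).Finite ∧
        ((Viol n κ c B).ncard : ℝ) ≤ M * B ^ ((n : ℝ) * e n / κ + δ) := by
  obtain ⟨e, h1, h2, h3⟩ := linnik
  refine ⟨e, h1, fun n hn κ c δ hκ hδ => ?_⟩
  obtain ⟨C, hC, hF⟩ := h3 n hn
  exact viol_card n (by omega) (e n) (h2 n) C hC hF κ c δ hκ hδ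

end Pool.Agent.W222.UABC
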