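import Mathlib

/-!
# Counting triples of natural numbers with small radicals
-/

set_option autoImplicit false

namespace Pool.Agent.W222.UABC

open Finset

theorem rankin_gen {ι : Type*} (f : ι × ℕ → ℝ) (hf0 : ∀ u, 0 ≤ f u) (F0 : ℝ)
    (hf : ∀ s : Finset (ι × ℕ), ∑ u ∈ s, f u ≤ F0) (E : Finset (ι →₀ ℕ)) :
    ∑ a ∈ E, ∏ v ∈ a.support, f (v, a v) ≤ Real.exp F0 := by
  classical
  set D : (ι →₀ ℕ) → Finset (ι × ℕ) := fun a => a.support.image (fun v => (v, a v)) with hD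
  have hmem : ∀ (a : ι →₀ ℕ) (v : ι) (m : ℕ), (v, m) ∈ D a ↔ a v ≠ 0 ∧ a v = m := by
    intro a v m
    rw [hD]
    simp only [Finset.mem_image, Finsupp.mem_support_iff, Prod.mk.injEq]
    constructor
    · rintro ⟨w, hw, rfl, h2⟩
      exact ⟨hw, h2⟩
    · rintro ⟨h1, h2⟩
      exact ⟨v, h1, rfl, h2⟩
  have hinj : Function.Injective D := by
    intro a b hab
    ext v
    by_cases ha : a v = 0
    · by_cases hb : b v = 0
      · rw [ha, hb]
      · have h1 : (v, b v) ∈ D a := by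
          rw [hab]
          exact (hmem b v _).2 ⟨hb, rfl⟩
        exact ((hmem a v _).1 h1).2
    · have h1 : (v, a v) ∈ D b := by
        rw [← hab]
        exact (hmem a v _).2 ⟨ha, rfl⟩
      exact ((hmem b v _).1 h1).2.symm
  have h0 : ∀ a : ι →₀ ℕ, ∏ v ∈ a.support, f (v, a v) = ∏ u ∈ D a, f u := by
    intro a
    rw [hD]
    simp only
    rw [Finset.prod_image]
    intro v _ w _ h
    exact (Prod.mk.inj h).1
  have h1 : ∑ a ∈ E, ∏ v ∈ a.support, f (v, a v) = ∑ D0 ∈ E.image D, ∏ u ∈ D0, f u := by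
    rw [Finset.sum_image (fun a _ b _ h => hinj h)]
    exact Finset.sum_congr rfl fun a _ => h0 a
  rw [h1]
  set U0 := E.biUnion D with hU0
  calc ∑ D0 ∈ E.image D, ∏ a ∈ D0, f a ≤ ∑ D0 ∈ U0.powerset, ∏ a ∈ D0, f a := by
        refine Finset.sum_le_sum_of_subset_of_nonneg ?_ (fun t _ _ =>
          Finset.prod_nonneg fun a _ => hf0 a)
        intro D0 hD0
        obtain ⟨x, hx, rfl⟩ := Finset.mem_image.mp hD0
        exact Finset.mem_powerset.mpr (Finset.subset_biUnion_of_mem D hx)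
    _ = ∏ a ∈ U0, (1 + f a) := (Finset.prod_one_add _).symm
    _ ≤ ∏ a ∈ U0, Real.exp (f a) := by
        refine Finset.prod_le_prod (fun a _ => by linarith [hf0 a]) (fun a _ => ?_)
        linarith [Real.add_one_le_exp (f a)]
    _ = Real.exp (∑ a ∈ U0, f a) := (Real.exp_sum _ _).symm
    _ ≤ Real.exp F0 := Real.exp_le_exp.mpr (hf U0)

/-- the radical of a natural number -/
def rd (m : ℕ) : ℕ := ∏ p ∈ m.primeFactors, p

theorem rd_pos (m : ℕ) : 0 < rd m :=
  Finset.prod_pos fun _ hp => (Nat.prime_of_mem_primeFactors hp).pos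

/-- weights for natural numbers -/
noncomputable def gw (η : ℝ) (u : ℕ × ℕ) : ℝ :=
  if u.1 < 2 ∨ u.2 = 0 then 0 else Real.exp (-((1 + η * u.2) * Real.log u.1))

theorem gw_nonneg (η : ℝ) (u : ℕ × ℕ) : 0 ≤ gw η u := by
  unfold gw
  split_ifs
  · exact le_rfl
  · exact (Real.exp_pos _).le

theorem gw_sum {η : ℝ} (hη : 0 < η) : ∃ F0 : ℝ, ∀ s : Finset (ℕ × ℕ), ∑ u ∈ s, gw η u ≤ F0 := by
  classical
  have hsum : Summable (fun m : ℕ => (m : ℝ) ^ (-(1 + η / 2))) :=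
    Real.summable_nat_rpow.2 (by linarith)
  set ρ : ℝ := Real.exp (-(η / 2 * Real.log 2)) with hρ
  have hlog : 0 < Real.log 2 := Real.log_pos (by norm_num)
  have hρ0 : 0 ≤ ρ := (Real.exp_pos _).le
  have hρ1 : ρ < 1 := by
    rw [hρ, Real.exp_lt_one_iff]
    have := mul_pos (half_pos hη) hlog
    linarith
  have hgeo := summable_geometric_of_lt_one hρ0 hρ1
  refine ⟨(∑' m : ℕ, (m : ℝ) ^ (-(1 + η / 2))) * ∑' m : ℕ, ρ ^ m, fun s => ?_⟩
  have h0 : ∀ u : ℕ × ℕ, gw η u ≤ (u.1 : ℝ) ^ (-(1 + η / 2)) * ρ ^ u.2 := by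
    intro u
    unfold gw
    split_ifs with hu
    · positivity
    · push Not at hu
      obtain ⟨hu1, hu2⟩ := hu
      have h2' : (2 : ℝ) ≤ u.1 := by exact_mod_cast hu1
      rw [Real.rpow_def_of_pos (by linarith), hρ, ← Real.exp_nat_mul, ← Real.exp_add]
      apply Real.exp_le_exp.2
      have h1 : Real.log 2 ≤ Real.log u.1 := Real.log_le_log (by norm_num) h2'
      have h2 : (1 : ℝ) ≤ u.2 := by
        exact_mod_cast Nat.one_le_iff_ne_zero.2 hu2
      have h3 : 0 < Real.log u.1 := by linarith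
      have h4 : η / 2 * (u.2 * Real.log 2) ≤ η / 2 * (u.2 * Real.log u.1) := by gcongr
      have h5 : η / 2 * (1 * Real.log u.1) ≤ η / 2 * (u.2 * Real.log u.1) := by gcongr
      nlinarith
  calc ∑ u ∈ s, gw η u
      ≤ ∑ u ∈ s, (u.1 : ℝ) ^ (-(1 + η / 2)) * ρ ^ u.2 := Finset.sum_le_sum fun u _ => h0 u
    _ ≤ ∑ u ∈ s.image Prod.fst ×ˢ s.image Prod.snd, (u.1 : ℝ) ^ (-(1 + η / 2)) * ρ ^ u.2 := by
        refine Finset.sum_le_sum_of_subset_of_nonneg ?_ (fun u _ _ => by positivity)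
        intro u hu
        exact Finset.mem_product.2 ⟨Finset.mem_image_of_mem _ hu, Finset.mem_image_of_mem _ hu⟩
    _ = (∑ v ∈ s.image Prod.fst, (v : ℝ) ^ (-(1 + η / 2))) * ∑ m ∈ s.image Prod.snd, ρ ^ m := by
        rw [Finset.sum_product, Finset.sum_mul_sum]
    _ ≤ _ := by
        refine mul_le_mul (hsum.sum_le_tsum _ fun m _ => by positivity)
          (hgeo.sum_le_tsum _ fun m _ => pow_nonneg hρ0 m)
          (Finset.sum_nonneg fun m _ => pow_nonneg hρ0 m) (tsum_nonneg fun m => by positivity)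

theorem gw_prod (η : ℝ) (m : ℕ) (hm : m ≠ 0) :
    ∏ v ∈ m.factorization.support, gw η (v, m.factorization v) =
      Real.exp (-(Real.log (rd m)) - η * Real.log m) := by
  have h1 : Real.log (rd m) = ∑ p ∈ m.primeFactors, Real.log p := by
    unfold rd
    push_cast
    rw [Real.log_prod]
    intro p hp
    exact_mod_cast (Nat.prime_of_mem_primeFactors hp).ne_zero
  have h2 : Real.log m = ∑ p ∈ m.primeFactors, (m.factorization p : ℝ) * Real.log p := by
    conv_lhs => rw [← Nat.prod_factorization_pow_eq_self hm]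
    rw [Finsupp.prod, Nat.support_factorization]
    push_cast
    rw [Real.log_prod]
    · exact Finset.sum_congr rfl fun p _ => Real.log_pow _ _
    · intro p hp
      have := (Nat.prime_of_mem_primeFactors hp).ne_zero
      positivity
  rw [h1, h2, Nat.support_factorization, Finset.mul_sum, ← Finset.sum_neg_distrib,
    ← Finset.sum_sub_distrib, Real.exp_sum]
  refine Finset.prod_congr rfl fun p hp => ?_
  unfold gw
  simp only
  have hp2 : ¬ (p < 2 ∨ m.factorization p = 0) := by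
    push Not
    refine ⟨(Nat.prime_of_mem_primeFactors hp).two_le, ?_⟩
    rw [← Nat.support_factorization] at hp
    exact Finsupp.mem_support_iff.1 hp
  rw [if_neg hp2]
  congr 1
  ring

theorem sum_gw {η : ℝ} (hη : 0 < η) : ∃ D : ℝ, 0 < D ∧ ∀ E : Finset ℕ, (∀ m ∈ E, m ≠ 0) →
    ∑ m ∈ E, Real.exp (-(Real.log (rd m)) - η * Real.log m) ≤ D := by
  classical
  obtain ⟨F0, hF0⟩ := gw_sum hη
  refine ⟨Real.exp F0, Real.exp_pos _, fun E hE => ?_⟩
  have hinj : Set.InjOn (fun m : ℕ => m.factorization) (E : Set ℕ) := by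
    intro a ha b hb hab
    exact Nat.factorization_inj (hE a ha) (hE b hb) hab
  have h1 := rankin_gen (gw η) (gw_nonneg η) F0 hF0 (E.image fun m : ℕ => m.factorization)
  rw [Finset.sum_image hinj] at h1
  refine le_trans (le_of_eq ?_) h1
  exact Finset.sum_congr rfl fun m hm => (gw_prod η m (hE m hm)).symm

/-- triples of natural numbers with small radicals are few -/
theorem tri_card {ε : ℝ} (hε : 0 < ε) : ∃ D : ℝ, 0 < D ∧
    ∀ (X Y : ℝ) (Q : Finset (ℕ × ℕ × ℕ)),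
      (∀ t ∈ Q, (t.1 ≠ 0 ∧ t.2.1 ≠ 0 ∧ t.2.2 ≠ 0) ∧
        Real.log (rd t.1) + Real.log (rd t.2.1) + Real.log (rd t.2.2) ≤ Y ∧
        Real.log t.1 ≤ X ∧ Real.log t.2.1 ≤ X ∧ Real.log t.2.2 ≤ X) →
      (Q.card : ℝ) ≤ D * Real.exp (Y + ε * X) := by
  classical
  obtain ⟨D, hD, hE⟩ := sum_gw (η := ε / 3) (by positivity)
  refine ⟨D * (D * D), by positivity, ?_⟩
  intro X Y Q hQ
  set w : ℕ → ℝ := fun m => Real.exp (-(Real.log (rd m)) - ε / 3 * Real.log m) with hw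
  have hw0 : ∀ a, 0 ≤ w a := fun a => (Real.exp_pos _).le
  have h1 : (Q.card : ℝ) ≤ ∑ t ∈ Q, Real.exp (Y + ε * X) * (w t.1 * (w t.2.1 * w t.2.2)) := by
    have h3 : (Q.card : ℝ) = ∑ t ∈ Q, (1 : ℝ) := by simp
    rw [h3]
    refine Finset.sum_le_sum fun t ht => ?_
    obtain ⟨-, h4, h5, h6, h7⟩ := hQ t ht
    rw [hw]
    simp only
    rw [← Real.exp_add, ← Real.exp_add, ← Real.exp_add]
    apply Real.one_le_exp
    have e3 : (0 : ℝ) ≤ ε / 3 := by positivity
    have h8 := mul_le_mul_of_nonneg_left h5 e3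
    have h9 := mul_le_mul_of_nonneg_left h6 e3
    have h10 := mul_le_mul_of_nonneg_left h7 e3
    linarith
  refine h1.trans ?_
  rw [← Finset.mul_sum, mul_comm]
  refine mul_le_mul_of_nonneg_right ?_ (Real.exp_pos _).le
  set Q1 := Q.image fun t => t.1 with hQ1
  set Q2 := Q.image fun t => t.2.1 with hQ2
  set Q3 := Q.image fun t => t.2.2 with hQ3
  have hn1 : ∀ m ∈ Q1, m ≠ 0 := by
    intro m hm
    obtain ⟨t, ht, rfl⟩ := Finset.mem_image.1 hm
    exact (hQ t ht).1.1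
  have hn2 : ∀ m ∈ Q2, m ≠ 0 := by
    intro m hm
    obtain ⟨t, ht, rfl⟩ := Finset.mem_image.1 hm
    exact (hQ t ht).1.2.1
  have hn3 : ∀ m ∈ Q3, m ≠ 0 := by
    intro m hm
    obtain ⟨t, ht, rfl⟩ := Finset.mem_image.1 hm
    exact (hQ t ht).1.2.2
  calc ∑ t ∈ Q, w t.1 * (w t.2.1 * w t.2.2)
      ≤ ∑ t ∈ Q1 ×ˢ (Q2 ×ˢ Q3), w t.1 * (w t.2.1 * w t.2.2) := by
        refine Finset.sum_le_sum_of_subset_of_nonneg ?_
          (fun t _ _ => mul_nonneg (hw0 _) (mul_nonneg (hw0 _) (hw0 _)))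
        intro t ht
        exact Finset.mem_product.2 ⟨Finset.mem_image_of_mem _ ht,
          Finset.mem_product.2 ⟨Finset.mem_image_of_mem (fun t : ℕ × ℕ × ℕ => t.2.1) ht,
            Finset.mem_image_of_mem (fun t : ℕ × ℕ × ℕ => t.2.2) ht⟩⟩
    _ = (∑ a ∈ Q1, w a) * ((∑ b ∈ Q2, w b) * ∑ c ∈ Q3, w c) := by
        have e : (∑ b ∈ Q2, w b) * ∑ c ∈ Q3, w c = ∑ p ∈ Q2 ×ˢ Q3, w p.1 * w p.2 := by
          rw [Finset.sum_mul_sum, Finset.sum_product]
        rw [e, Finset.sum_mul_sum, Finset.sum_product]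
    _ ≤ D * (D * D) := by
        refine mul_le_mul (hE _ hn1) (mul_le_mul (hE _ hn2) (hE _ hn3)
          (Finset.sum_nonneg fun b _ => hw0 b) hD.le) (mul_nonneg
            (Finset.sum_nonneg fun b _ => hw0 b) (Finset.sum_nonneg fun b _ => hw0 b)) hD.le

end Pool.Agent.W222.UABC
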