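import Mathlib
import Pool.Agent.W223.AK.Point
import Pool.Agent.W222.UABC.Tri
import Pool.Agent.W222.UABC.PerField

/-!
# Norms of the ideals of a point
-/

set_option autoImplicit false

namespace Pool.Agent.W222.UABC

open NumberField IsDedekindDomain Finset Pool.Agent.H691R3 Pool.Agent.W223.AK

variable {K : Type} [Field K] [NumberField K]

/-- the norm of an ideal as a natural number -/
noncomputable def nn (a : Idl K) : ℕ := ∏ v ∈ a.support, (nm v) ^ (a v)

theorem nn_pos (a : Idl K) : 0 < nn a :=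
  Finset.prod_pos fun v _ => pow_pos (Nat.pos_of_ne_zero (nm_ne_zero v)) _

theorem log_nn (a : Idl K) : Real.log (nn a) = len a := by
  unfold nn len
  push_cast
  rw [Real.log_prod]
  · exact Finset.sum_congr rfl fun v _ => Real.log_pow _ _
  · intro v _
    have := nm_ne_zero v
    positivity

theorem exp_len (a : Idl K) : Real.exp (len a) = nn a := by
  rw [← log_nn, Real.exp_log]
  exact_mod_cast nn_pos a

theorem log_rd_nn (a : Idl K) : Real.log (rd (nn a)) ≤ rl a := by
  have h1 : rd (nn a) ≤ ∏ v ∈ a.support, nm v := by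
    have h2 : (∏ v ∈ a.support, nm v) ≠ 0 :=
      Finset.prod_ne_zero_iff.2 fun v _ => nm_ne_zero v
    refine Nat.le_of_dvd (Nat.pos_of_ne_zero h2) ?_
    unfold rd
    refine Finset.prod_primes_dvd _ (fun p hp => (Nat.prime_of_mem_primeFactors hp).prime) ?_
    intro p hp
    have hp' := Nat.prime_of_mem_primeFactors hp
    have hd : p ∣ nn a := Nat.dvd_of_mem_primeFactors hp
    unfold nn at hd
    obtain ⟨v, hv, hdv⟩ := (Prime.dvd_finsetProd_iff hp'.prime _).1 hd
    exact (hp'.dvd_of_dvd_pow hdv).trans (Finset.dvd_prod_of_mem _ hv)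
  have h3 : (0 : ℝ) < rd (nn a) := by exact_mod_cast rd_pos _
  have h4 : ((rd (nn a) : ℕ) : ℝ) ≤ ∏ v ∈ a.support, (nm v : ℝ) := by exact_mod_cast h1
  refine (Real.log_le_log h3 h4).trans (le_of_eq ?_)
  rw [Real.log_prod]
  · rfl
  · intro v _
    have := nm_ne_zero v
    positivity

theorem ideal_of {t y : K} (ht : t ≠ 0) (hy : y ≠ 0) (h : ∀ v : Pr K, fv v y ≤ max (fv v t) 1) :
    ∃ Q : Idl K, ∀ v, fv v y = max (fv v t) 1 * (Nv v) ^ (-(Q v : ℤ)) := by
  classical
  have hex : ∀ v : Pr K, ∃ n : ℕ, fv v y = max (fv v t) 1 * (Nv v) ^ (-(n : ℤ)) := by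
    intro v
    obtain ⟨a, ha⟩ := max_zpow v ht
    obtain ⟨b, hb⟩ := fv_zpow v hy
    have h1 := h v
    rw [ha, hb, zpow_le_zpow_iff_right₀ (Nv_one_lt v)] at h1
    refine ⟨(a - b).toNat, ?_⟩
    rw [ha, hb, Int.toNat_of_nonneg (by omega), ← zpow_add₀ (Nv_pos v).ne']
    congr 1
    ring
  choose n hn using hex
  have hfin : (Function.support fun v : Pr K => n v).Finite := by
    refine ((fv_support_finite ht).union ((fv_support_finite hy))).subset ?_
    intro v hv
    by_contra hcon
    simp only [Set.mem_union, Set.mem_ofPred_eq, not_or, not_not] at hcon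
    apply hv
    have h1 := hn v
    rw [hcon.1, hcon.2, max_self, one_mul, zpow_neg] at h1
    by_contra h3
    have h4 : (1 : ℝ) < (Nv v) ^ ((n v : ℕ) : ℤ) := by
      rw [zpow_natCast]
      exact one_lt_pow₀ (Nv_one_lt v) h3
    have h5 : ((Nv v) ^ ((n v : ℕ) : ℤ))⁻¹ < 1 := inv_lt_one_of_one_lt₀ h4
    rw [← h1] at h5
    exact lt_irrefl _ h5
  exact ⟨Finsupp.ofSupportFinite _ hfin, fun v => hn v⟩

/-- the finite part of the height -/
noncomputable def SF (t : K) : ℝ := ∑ᶠ v : Pr K, Real.log (max (fv v t) 1)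

theorem SF_support {t : K} (ht : t ≠ 0) :
    (Function.support fun v : Pr K => Real.log (max (fv v t) 1)).Finite := by
  refine (fv_support_finite ht).subset ?_
  intro v hv
  by_contra hcon
  simp only [Set.mem_ofPred_eq, not_not] at hcon
  apply hv
  show Real.log (max (fv v t) 1) = 0
  rw [hcon, max_self, Real.log_one]

theorem sum_log_norm {y : K} (hy : y ≠ 0) :
    ∑ w : InfinitePlace K, (w.mult : ℝ) * Real.log (w y) =
      Real.log |((Algebra.norm ℚ y : ℚ) : ℝ)| := by
  have h := InfinitePlace.prod_eq_abs_norm y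
  have h2 : (((|Algebra.norm ℚ y| : ℚ)) : ℝ) = |((Algebra.norm ℚ y : ℚ) : ℝ)| := Rat.cast_abs _
  rw [← h2, ← h, Real.log_prod]
  · exact Finset.sum_congr rfl fun w _ => (Real.log_pow _ _).symm
  · intro w _
    exact (pow_pos (InfinitePlace.pos_iff.2 hy) _).ne'

theorem norm_formula {t y : K} (ht : t ≠ 0) (hy : y ≠ 0) {Q : Idl K}
    (hQ : ∀ v, fv v y = max (fv v t) 1 * (Nv v) ^ (-(Q v : ℤ))) :
    Real.log |((Algebra.norm ℚ y : ℚ) : ℝ)| = len Q - SF t := by
  have h1 := log_product_formula (K := K) hy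
  rw [sum_log_norm hy] at h1
  have h2 : ∑ᶠ v : Pr K, Real.log (fv v y) = SF t - len Q := by
    have hlen : len Q = ∑ᶠ v : Pr K, (Q v : ℝ) * Real.log (Nv v) := by
      unfold len
      rw [finsum_eq_sum_of_support_subset (s := Q.support)]
      intro v hv
      rw [Finset.mem_coe, Finsupp.mem_support_iff]
      intro h0
      apply hv
      show (Q v : ℝ) * Real.log (Nv v) = 0
      rw [h0, Nat.cast_zero, zero_mul]
    have hfin : (Function.support fun v : Pr K => (Q v : ℝ) * Real.log (Nv v)).Finite := by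
      refine Q.support.finite_toSet.subset ?_
      intro v hv
      rw [Finset.mem_coe, Finsupp.mem_support_iff]
      intro h0
      apply hv
      show (Q v : ℝ) * Real.log (Nv v) = 0
      rw [h0, Nat.cast_zero, zero_mul]
    unfold SF
    rw [hlen, ← finsum_sub_distrib (SF_support ht) hfin]
    refine finsum_congr fun v => ?_
    have hm : (0 : ℝ) < max (fv v t) 1 := lt_max_of_lt_right one_pos
    rw [hQ v, Real.log_mul hm.ne' (zpow_pos (Nv_pos v) _).ne', Real.log_zpow]
    push_cast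
    ring
  rw [h2] at h1
  linarith

theorem len_P1 {t : K} (ht : Pt t) {P : Fin 3 → Idl K} (hP : IsP ∅ t P) : len (P 1) = SF t := by
  have h := norm_formula (t := t) (y := 1) ht.1 one_ne_zero (Q := P 1) (fun v => by
    have := hP.val 1 v (Finset.notMem_empty v)
    rwa [show L 1 t = 1 from rfl] at this)
  rw [map_one] at h
  simp only [Rat.cast_one, abs_one, Real.log_one] at h
  linarith

theorem norm_mul {t y : K} (ht : Pt t) {P : Fin 3 → Idl K} (hP : IsP ∅ t P) (hy : y ≠ 0)
    {Q : Idl K} (hQ : ∀ v, fv v y = max (fv v t) 1 * (Nv v) ^ (-(Q v : ℤ))) :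
    (nn (P 1) : ℚ) * |Algebra.norm ℚ y| = nn Q := by
  have h := norm_formula ht.1 hy hQ
  rw [← len_P1 ht hP, ← log_nn, ← log_nn] at h
  have hn : Algebra.norm ℚ y ≠ 0 := Algebra.norm_ne_zero_iff.2 hy
  have hn' : (0 : ℝ) < |((Algebra.norm ℚ y : ℚ) : ℝ)| := abs_pos.2 (by exact_mod_cast hn)
  have h1 : (0 : ℝ) < nn (P 1) := by exact_mod_cast nn_pos _
  have h2 : (0 : ℝ) < nn Q := by exact_mod_cast nn_pos _
  rw [← Real.log_div h2.ne' h1.ne'] at h
  have h3 := Real.log_injOn_pos (Set.mem_Ioi.2 hn') (Set.mem_Ioi.2 (div_pos h2 h1)) h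
  rw [eq_div_iff h1.ne'] at h3
  have h4 : (((nn (P 1) : ℚ) * |Algebra.norm ℚ y| : ℚ) : ℝ) = ((nn Q : ℚ) : ℝ) := by
    push_cast
    linarith
  exact_mod_cast h4

theorem ht_SF {t : K} : ht t = ∑ w : InfinitePlace K, (w.mult : ℝ) * Real.log (max (w t) 1) +
    SF t := by
  unfold ht hr SF
  congr 1
  · refine Finset.sum_congr rfl fun w _ => ?_
    have : max (w (aff t).1) (w (aff t).2) = max (w t) 1 := by
      show max (w t) (w 1) = _
      rw [map_one]
    rw [this]
  · refine finsum_congr fun v => ?_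
    have h2 : max (fv v (aff t).1) (fv v (aff t).2) = max (fv v t) 1 := by
      show max (fv v t) (fv v 1) = _
      rw [map_one]
    rw [h2]

theorem fv_int_le (v : Pr K) (a : ℤ) : fv v (a : K) ≤ 1 := by
  have h : ((a : ℤ) : K) = algebraMap (𝓞 K) K (a : 𝓞 K) := by simp
  rw [h]
  exact FinitePlace.norm_le_one (K := K) (v := v) (a : 𝓞 K)

theorem fv_sub_le (v : Pr K) (a : ℤ) (t : K) : fv v ((a : K) - t) ≤ max (fv v t) 1 := by
  rw [sub_eq_add_neg]
  refine (fv_na v _ _).trans ?_
  rw [map_neg_eq_map]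
  exact max_le ((fv_int_le v a).trans (le_max_right _ _)) (le_max_left _ _)

/-- the values of the norm form are integers -/
theorem exists_int {t : K} (ht : Pt t) {P : Fin 3 → Idl K} (hP : IsP ∅ t P) (a : ℤ) :
    ∃ z : ℤ, (z : ℚ) = (nn (P 1) : ℚ) * Algebra.norm ℚ ((a : K) - t) ∧
      |(z : ℝ)| ≤ (|(a : ℝ)| + 1) ^ (Module.finrank ℚ K) *
        Real.exp (Pool.Agent.W223.AK.ht t) := by
  by_cases hy : (a : K) - t = 0
  · refine ⟨0, ?_, ?_⟩
    · rw [hy, Algebra.norm_zero, mul_zero]
      rfl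
    · simp only [Int.cast_zero, abs_zero]
      positivity
  · obtain ⟨Q, hQ⟩ := ideal_of ht.1 hy (fun v => fv_sub_le v a t)
    have h1 := norm_mul ht hP hy hQ
    have hb : ((nn Q : ℕ) : ℝ) ≤ (|(a : ℝ)| + 1) ^ (Module.finrank ℚ K) *
        Real.exp (Pool.Agent.W223.AK.ht t) := by
      have h2 := norm_formula ht.1 hy hQ
      rw [← sum_log_norm hy] at h2
      have h3 : (0 : ℝ) < |(a : ℝ)| + 1 := by positivity
      have h4 : ∑ w : InfinitePlace K, (w.mult : ℝ) * Real.log (w ((a : K) - t)) ≤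
          ∑ w : InfinitePlace K, (w.mult : ℝ) * (Real.log (|(a : ℝ)| + 1) +
            Real.log (max (w t) 1)) := by
        refine Finset.sum_le_sum fun w _ => mul_le_mul_of_nonneg_left ?_ (Nat.cast_nonneg _)
        have hm : (0 : ℝ) < max (w t) 1 := lt_max_of_lt_right one_pos
        rw [← Real.log_mul h3.ne' hm.ne']
        refine Real.log_le_log (InfinitePlace.pos_iff.2 hy) ?_
        have h5 : w ((a : K) - t) ≤ w (a : K) + w t := by
          have h6 := w.1.add_le (a : K) (-t)
          rw [w.1.map_neg, ← sub_eq_add_neg] at h6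
          exact h6
        have h7 : w ((a : ℤ) : K) = |(a : ℝ)| := by
          have h8 := w.2
          obtain ⟨φ, hφ⟩ := h8
          have h9 : w ((a : ℤ) : K) = ‖φ ((a : ℤ) : K)‖ := by
            have := congrArg (fun f : AbsoluteValue K ℝ => f ((a : ℤ) : K)) hφ
            exact this.symm
          rw [h9, map_intCast, Complex.norm_intCast]
        rw [h7] at h5
        have h8 := le_max_left (w t) 1
        have h9 := le_max_right (w t) 1
        have h10 : 0 ≤ |(a : ℝ)| := abs_nonneg _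
        nlinarith
      have h5 : ∑ w : InfinitePlace K, (w.mult : ℝ) * (Real.log (|(a : ℝ)| + 1) +
            Real.log (max (w t) 1)) = Module.finrank ℚ K * Real.log (|(a : ℝ)| + 1) +
            ∑ w : InfinitePlace K, (w.mult : ℝ) * Real.log (max (w t) 1) := by
        simp only [mul_add]
        rw [Finset.sum_add_distrib, ← Finset.sum_mul]
        congr 2
        have := InfinitePlace.sum_mult_eq (K := K)
        exact_mod_cast this
      have h6 : len Q ≤ Module.finrank ℚ K * Real.log (|(a : ℝ)| + 1) +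
          Pool.Agent.W223.AK.ht t := by
        rw [ht_SF]
        linarith
      rw [← exp_len]
      refine (Real.exp_le_exp.2 h6).trans (le_of_eq ?_)
      rw [Real.exp_add, Real.exp_nat_mul, Real.exp_log h3]
    rcases abs_choice (Algebra.norm ℚ ((a : K) - t)) with h2 | h2
    · rw [h2] at h1
      refine ⟨(nn Q : ℤ), ?_, ?_⟩
      · rw [h1]
        push_cast
        rfl
      · push_cast
        rw [Nat.abs_cast]
        exact hb
    · rw [h2] at h1
      refine ⟨-(nn Q : ℤ), ?_, ?_⟩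
      · push_cast
        rw [← h1]
        ring
      · push_cast
        rw [abs_neg, Nat.abs_cast]
        exact hb

theorem abs_int_zero {t : K} (ht : Pt t) {P : Fin 3 → Idl K} (hP : IsP ∅ t P) :
    |(nn (P 1) : ℚ) * Algebra.norm ℚ (((0 : ℤ) : K) - t)| = nn (P 0) := by
  have hy : ((0 : ℤ) : K) - t ≠ 0 := by
    rw [Int.cast_zero, zero_sub]
    exact neg_ne_zero.2 ht.1
  have h := norm_mul ht hP hy (Q := P 0) (fun v => by
    rw [Int.cast_zero, zero_sub, map_neg_eq_map]
    exact hP.val 0 v (Finset.notMem_empty v))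
  rw [abs_mul, Nat.abs_cast]
  exact h

theorem abs_int_neg_one {t : K} (ht : Pt t) {P : Fin 3 → Idl K} (hP : IsP ∅ t P) :
    |(nn (P 1) : ℚ) * Algebra.norm ℚ (((-1 : ℤ) : K) - t)| = nn (P 2) := by
  have e : ((-1 : ℤ) : K) - t = -(t + 1) := by
    push_cast
    ring
  have hy : ((-1 : ℤ) : K) - t ≠ 0 := by
    rw [e]
    exact neg_ne_zero.2 ht.2
  have h := norm_mul ht hP hy (Q := P 2) (fun v => by
    rw [e, map_neg_eq_map]
    exact hP.val 2 v (Finset.notMem_empty v))
  rw [abs_mul, Nat.abs_cast]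
  exact h

end Pool.Agent.W222.UABC
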