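import Mathlib
import Pool.Agent.W222.UABC.Norm

/-!
# Points of degree `n` with small radical, by their characteristic polynomials
-/

set_option autoImplicit false

namespace Pool.Agent.W222.UABC

open NumberField IsDedekindDomain Finset Pool.Agent.H691R3 Pool.Agent.W223.AK Polynomial

section Data

variable {K : Type} [Field K] [NumberField K]

theorem eval_charpoly_lmul (t : K) (a : ℚ) :
    (Algebra.lmul ℚ K t).charpoly.eval a = Algebra.norm ℚ (algebraMap ℚ K a - t) := by
  have h1 : (Algebra.lmul ℚ K t).charpoly.eval a =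
      LinearMap.det (algebraMap ℚ (Module.End ℚ K) a - Algebra.lmul ℚ K t) :=
    LinearMap.eval_charpoly _ _
  have h2 : algebraMap ℚ (Module.End ℚ K) a - Algebra.lmul ℚ K t =
      Algebra.lmul ℚ K (algebraMap ℚ K a - t) := by
    rw [map_sub]
    congr 1
    exact ((Algebra.lmul ℚ K).commutes a).symm
  rw [h1, h2, Algebra.norm_apply]

theorem data {t : K} (ht' : Pt t) {P : Fin 3 → Idl K} (hP : IsP ∅ t P) :
    ∃ (z : ℤ → ℤ) (χ : ℚ[X]), χ.Monic ∧ χ.natDegree = Module.finrank ℚ K ∧ aeval t χ = 0 ∧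
      (∀ a : ℤ, (z a : ℚ) = (nn (P 1) : ℚ) * χ.eval (a : ℚ)) ∧ |z 0| = nn (P 0) ∧
      |z (-1)| = nn (P 2) ∧
      ∀ a : ℤ, |(z a : ℝ)| ≤ (|(a : ℝ)| + 1) ^ (Module.finrank ℚ K) * Real.exp (ht t) := by
  choose z hz1 hz2 using exists_int ht' hP
  refine ⟨z, (Algebra.lmul ℚ K t).charpoly, LinearMap.charpoly_monic _,
    LinearMap.charpoly_natDegree _, Algebra.aeval_self_charpoly_lmul t, ?_, ?_, ?_, hz2⟩
  · intro a
    rw [hz1 a, eval_charpoly_lmul]
    congr 2
    simp
  · have h := abs_int_zero ht' hP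
    rw [← hz1 0] at h
    exact_mod_cast h
  · have h := abs_int_neg_one ht' hP
    rw [← hz1 (-1)] at h
    exact_mod_cast h

end Data

/-- the data attached to a point -/
structure Dat (n : ℕ) (X Y : ℝ) (x : AlgebraicClosure ℚ) (N : ℕ × ℕ × ℕ) (z : ℤ → ℤ) (χ : ℚ[X]) :
    Prop where
  pos : N.1 ≠ 0 ∧ N.2.1 ≠ 0 ∧ N.2.2 ≠ 0
  rad : Real.log (rd N.1) + Real.log (rd N.2.1) + Real.log (rd N.2.2) ≤ Y
  size : Real.log N.1 ≤ X + n * Real.log 2 ∧ Real.log N.2.1 ≤ X + n * Real.log 2 ∧
    Real.log N.2.2 ≤ X + n * Real.log 2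
  monic : χ.Monic
  deg : χ.natDegree = n
  root : aeval x χ = 0
  val : ∀ a : ℤ, (z a : ℚ) = (N.2.1 : ℚ) * χ.eval (a : ℚ)
  z0 : |z 0| = N.1
  z1 : |z (-1)| = N.2.2
  bd : ∀ a : ℤ, |(z a : ℝ)| ≤ (|(a : ℝ)| + 1) ^ n * Real.exp X

/-- the points which are counted -/
def Good (n : ℕ) (X Y : ℝ) (x : AlgebraicClosure ℚ) : Prop :=
  ∃ (K : IntermediateField ℚ (AlgebraicClosure ℚ)) (_ : NumberField K) (t : K),
    (t : AlgebraicClosure ℚ) = x ∧ Module.finrank ℚ K = n ∧ Pt t ∧ ht t ≤ X ∧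
    ∃ P : Fin 3 → Idl K, IsP ∅ t P ∧ rl (P 0) + rl (P 1) + rl (P 2) ≤ Y

theorem Good.dat {n : ℕ} {X Y : ℝ} {x : AlgebraicClosure ℚ} (h : Good n X Y x) :
    ∃ N z χ, Dat n X Y x N z χ := by
  obtain ⟨K, hnf, t, htx, hK, hPt, hht, P, hP, hrl⟩ := h
  obtain ⟨z, χ, h1, h2, h3, h4, h5, h6, h7⟩ := data hPt hP
  rw [hK] at h2 h7
  have hlen : ∀ l, Real.log (nn (P l)) ≤ X + n * Real.log 2 := by
    intro l
    rw [log_nn]
    have := len_le hPt hP l
    rw [cS_empty, hK] at this
    linarith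
  refine ⟨(nn (P 0), nn (P 1), nn (P 2)), z, χ, ?_⟩
  exact
    { pos := ⟨(nn_pos _).ne', (nn_pos _).ne', (nn_pos _).ne'⟩
      rad := by
        have e0 := log_rd_nn (P 0)
        have e1 := log_rd_nn (P 1)
        have e2 := log_rd_nn (P 2)
        simp only
        linarith
      size := ⟨hlen 0, hlen 1, hlen 2⟩
      monic := h1
      deg := h2
      root := by
        rw [← htx]
        have := congrArg (algebraMap K (AlgebraicClosure ℚ)) h3
        rw [map_zero, ← aeval_algebraMap_apply] at this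
        exact this
      val := h4
      z0 := h5
      z1 := h6
      bd := fun a => (h7 a).trans (mul_le_mul_of_nonneg_left (Real.exp_le_exp.2 hht)
        (by positivity)) }

theorem few_x (n : ℕ) (hn : 2 ≤ n) {ε : ℝ} (hε : 0 < ε) : ∃ D : ℝ, 0 < D ∧
    ∀ (X Y : ℝ) (E : Finset (AlgebraicClosure ℚ)), 0 ≤ X → (∀ x ∈ E, Good n X Y x) →
      (E.card : ℝ) ≤ D * Real.exp (((n - 2 : ℕ) : ℝ) * X + Y + ε * X) := by
  classical
  obtain ⟨D, hD, htri⟩ := tri_card hε
  have hl2 : 0 ≤ Real.log 2 := Real.log_nonneg (by norm_num)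
  have hn0 : (1 : ℝ) ≤ n := by exact_mod_cast (by omega : 1 ≤ n)
  refine ⟨n * (D * Real.exp (ε * (n * Real.log 2)) * (4 * (3 * (n : ℝ) ^ n) ^ (n - 2))),
    by positivity, ?_⟩
  intro X Y E hX hE
  have hex : ∀ x : AlgebraicClosure ℚ, ∃ N z χ, x ∈ E → Dat n X Y x N z χ := by
    intro x
    by_cases hx : x ∈ E
    · obtain ⟨N, z, χ, h⟩ := (hE x hx).dat
      exact ⟨N, z, χ, fun _ => h⟩
    · exact ⟨(0, 0, 0), fun _ => 0, 0, fun h => absurd h hx⟩
  choose N z χ hd using hex
  set Φ : AlgebraicClosure ℚ → (ℕ × ℕ × ℕ) × ((Bool × Bool) × (Fin (n - 2) → ℤ)) := fun x =>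
    (N x, ((decide (0 ≤ z x 0), decide (0 ≤ z x (-1))), fun i => z x ((i : ℤ) + 1))) with hΦ
  have hfib : ∀ b ∈ E.image Φ, (E.filter fun x => Φ x = b).card ≤ n := by
    intro b hb
    obtain ⟨x0, hx0, rfl⟩ := Finset.mem_image.1 hb
    have d0 := hd x0 hx0
    have hsame : ∀ x ∈ E, Φ x = Φ x0 → χ x = χ x0 := by
      intro x hx hxx
      have d := hd x hx
      rw [hΦ] at hxx
      simp only [Prod.mk.injEq] at hxx
      obtain ⟨e1, ⟨e2, e3⟩, e4⟩ := hxx
      have hz0 : z x 0 = z x0 0 := by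
        have a1 := d.z0
        have a2 := d0.z0
        rw [e1, ← a2] at a1
        have e2' : (0 ≤ z x 0) ↔ (0 ≤ z x0 0) := by simpa using e2
        by_cases h : 0 ≤ z x 0
        · rw [abs_of_nonneg h, abs_of_nonneg (e2'.1 h)] at a1
          exact a1
        · have h' : ¬ 0 ≤ z x0 0 := fun h2 => h (e2'.2 h2)
          rw [abs_of_neg (not_le.1 h), abs_of_neg (not_le.1 h')] at a1
          linarith
      have hz1 : z x (-1) = z x0 (-1) := by
        have a1 := d.z1
        have a2 := d0.z1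
        rw [e1, ← a2] at a1
        have e3' : (0 ≤ z x (-1)) ↔ (0 ≤ z x0 (-1)) := by simpa using e3
        by_cases h : 0 ≤ z x (-1)
        · rw [abs_of_nonneg h, abs_of_nonneg (e3'.1 h)] at a1
          exact a1
        · have h' : ¬ 0 ≤ z x0 (-1) := fun h2 => h (e3'.2 h2)
          rw [abs_of_neg (not_le.1 h), abs_of_neg (not_le.1 h')] at a1
          linarith
      have hN1 : ((N x).2.1 : ℚ) ≠ 0 := by exact_mod_cast d.pos.2.1
      have heval : ∀ a : ℤ, z x a = z x0 a → (χ x).eval (a : ℚ) = (χ x0).eval (a : ℚ) := by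
        intro a ha
        have v1 := d.val a
        have v2 := d0.val a
        rw [ha, v2, ← e1] at v1
        exact (mul_left_cancel₀ hN1 v1).symm
      set s : Finset ℚ := (Finset.range n).image fun k : ℕ => ((k : ℚ) - 1) with hs
      have hscard : s.card = n := by
        rw [hs, Finset.card_image_of_injective, Finset.card_range]
        intro a b hab
        have : (a : ℚ) = b := by
          simp only at hab
          linarith
        exact_mod_cast this
      have hdx : (χ x).degree = n := by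
        rw [Polynomial.degree_eq_natDegree d.monic.ne_zero, d.deg]
      have hdx0 : (χ x0).degree = n := by
        rw [Polynomial.degree_eq_natDegree d0.monic.ne_zero, d0.deg]
      refine Polynomial.eq_of_degree_le_of_eval_finset_eq s ?_ ?_ ?_ ?_
      · rw [hscard, hdx]
      · rw [hdx, hdx0]
      · rw [d.monic.leadingCoeff, d0.monic.leadingCoeff]
      · intro q hq
        obtain ⟨k, hk, rfl⟩ := Finset.mem_image.1 hq
        rw [Finset.mem_range] at hk
        have hk' : ((k : ℚ) - 1) = (((k : ℤ) - 1 : ℤ) : ℚ) := by push_cast; rfl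
        rw [hk']
        apply heval
        rcases k with _ | _ | k
        · simpa using hz1
        · simpa using hz0
        · have h1 := congrFun e4 ⟨k, by omega⟩
          simp only at h1
          have h2 : ((k + 1 + 1 : ℕ) : ℤ) - 1 = (k : ℤ) + 1 := by push_cast; ring
          rw [h2]
          exact h1
    have hsub : (E.filter fun x => Φ x = Φ x0) ⊆ ((χ x0).aroots (AlgebraicClosure ℚ)).toFinset := by
      intro x hx
      obtain ⟨hxE, hxx⟩ := Finset.mem_filter.1 hx
      rw [Multiset.mem_toFinset, Polynomial.mem_aroots]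
      refine ⟨d0.monic.ne_zero, ?_⟩
      rw [← hsame x hxE hxx]
      exact (hd x hxE).root
    refine (Finset.card_le_card hsub).trans ((Multiset.toFinset_card_le _).trans ?_)
    refine (Polynomial.card_roots' _).trans ?_
    rw [Polynomial.natDegree_map, d0.deg]
  have h1 := Finset.card_le_mul_card_image E n hfib
  set M : ℤ := ⌊(n : ℝ) ^ n * Real.exp X⌋ with hM
  have hM1 : (1 : ℝ) ≤ (n : ℝ) ^ n * Real.exp X := by
    have a1 : (1 : ℝ) ≤ (n : ℝ) ^ n := one_le_pow₀ hn0
    have a2 : 1 ≤ Real.exp X := Real.one_le_exp hX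
    nlinarith
  have hM0 : 0 ≤ M := Int.floor_nonneg.2 (by linarith)
  have himg : E.image Φ ⊆ (E.image N) ×ˢ ((Finset.univ : Finset (Bool × Bool)) ×ˢ
      Fintype.piFinset (fun _ : Fin (n - 2) => Finset.Icc (-M) M)) := by
    intro b hb
    obtain ⟨x, hx, rfl⟩ := Finset.mem_image.1 hb
    have d := hd x hx
    refine Finset.mem_product.2 ⟨Finset.mem_image_of_mem _ hx,
      Finset.mem_product.2 ⟨Finset.mem_univ _, ?_⟩⟩
    rw [Fintype.mem_piFinset]
    intro i
    have hb := d.bd ((i : ℤ) + 1)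
    have hi : ((i : ℕ) : ℝ) + 2 ≤ n := by
      have := i.2
      exact_mod_cast (by omega : (i : ℕ) + 2 ≤ n)
    have hb2 : |(z x ((i : ℤ) + 1) : ℝ)| ≤ (n : ℝ) ^ n * Real.exp X := by
      refine hb.trans (mul_le_mul_of_nonneg_right ?_ (Real.exp_pos _).le)
      refine pow_le_pow_left₀ (by positivity) ?_ n
      push_cast
      rw [abs_of_nonneg (by positivity)]
      linarith
    rw [Finset.mem_Icc]
    have hb3 := abs_le.1 hb2
    constructor
    · rw [hM]
      have h3 : -(z x ((i : ℤ) + 1)) ≤ ⌊(n : ℝ) ^ n * Real.exp X⌋ := by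
        rw [Int.le_floor]
        push_cast
        linarith [hb3.1]
      linarith
    · rw [hM, Int.le_floor]
      exact hb3.2
  have h2 := Finset.card_le_card himg
  rw [Finset.card_product, Finset.card_product, Fintype.card_piFinset, Finset.prod_const,
    Finset.card_univ, Finset.card_univ, Fintype.card_fin, Int.card_Icc] at h2
  have hT : ((E.image N).card : ℝ) ≤ D * Real.exp (Y + ε * (X + n * Real.log 2)) := by
    refine htri _ _ _ ?_
    intro t ht'
    obtain ⟨x, hx, rfl⟩ := Finset.mem_image.1 ht'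
    have d := hd x hx
    exact ⟨d.pos, d.rad, d.size⟩
  have hMc : (((M + 1 - -M).toNat : ℕ) : ℝ) ≤ 3 * (n : ℝ) ^ n * Real.exp X := by
    have a1 : (((M + 1 - -M).toNat : ℕ) : ℤ) = M + 1 - -M := Int.toNat_of_nonneg (by omega)
    have a2 : (((M + 1 - -M).toNat : ℕ) : ℝ) = 2 * (M : ℝ) + 1 := by
      have a3 : ((((M + 1 - -M).toNat : ℕ) : ℤ) : ℝ) = ((M + 1 - -M : ℤ) : ℝ) := by rw [a1]
      rw [Int.cast_natCast] at a3
      rw [a3]
      push_cast
      ring
    rw [a2]
    have a4 : (M : ℝ) ≤ (n : ℝ) ^ n * Real.exp X := Int.floor_le _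
    nlinarith
  have h4 : (Fintype.card (Bool × Bool) : ℝ) = 4 := by
    rw [Fintype.card_prod, Fintype.card_bool]
    norm_num
  calc (E.card : ℝ) ≤ n * ((E.image Φ).card : ℝ) := by exact_mod_cast h1
    _ ≤ n * (((E.image N).card : ℝ) * ((Fintype.card (Bool × Bool) : ℝ) *
          (((M + 1 - -M).toNat : ℕ) : ℝ) ^ (n - 2))) := by
        refine mul_le_mul_of_nonneg_left ?_ (by positivity)
        exact_mod_cast h2
    _ ≤ n * (D * Real.exp (Y + ε * (X + n * Real.log 2)) * (4 *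
          (3 * (n : ℝ) ^ n * Real.exp X) ^ (n - 2))) := by
        rw [h4]
        gcongr
    _ = n * (D * Real.exp (ε * (n * Real.log 2)) * (4 * (3 * (n : ℝ) ^ n) ^ (n - 2))) *
          Real.exp (((n - 2 : ℕ) : ℝ) * X + Y + ε * X) := by
        have e1 : Y + ε * (X + n * Real.log 2) = (Y + ε * X) + ε * (n * Real.log 2) := by ring
        have e2 : ((n - 2 : ℕ) : ℝ) * X + Y + ε * X = ((n - 2 : ℕ) : ℝ) * X + (Y + ε * X) := by ring
        rw [e1, e2, Real.exp_add, Real.exp_add (((n - 2 : ℕ) : ℝ) * X), mul_pow _ (Real.exp X),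
          ← Real.exp_nat_mul]
        ring

end Pool.Agent.W222.UABC
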