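import Mathlib
import Pool.Agent.W301.LinH5

/-!
# A Schmidt type bound for the number of number fields
-/

set_option autoImplicit false

namespace Pool.Agent.W222.UABC

open NumberField Module Polynomial Pool.Agent.W301.Lin

/-- the degree of a proper subfield -/
theorem finrank_proper {L : Type} [Field L] [NumberField L] {n : ℕ} (hn : finrank ℚ L = n)
    (F : IntermediateField ℚ L) (hF : F ≠ ⊤) : finrank ℚ F ≤ n / n.minFac := by
  have hn0 : 0 < n := by rw [← hn]; exact finrank_pos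
  have hdvd : finrank ℚ F ∣ n := by
    rw [← hn]
    exact ⟨finrank F L, (finrank_mul_finrank ℚ F L).symm⟩
  have hne : finrank ℚ F ≠ n := by
    intro h
    apply hF
    refine IntermediateField.eq_of_le_of_finrank_eq le_top ?_
    rw [h, IntermediateField.finrank_top', hn]
  obtain ⟨k, hk⟩ := hdvd
  have hk1 : k ≠ 1 := by
    rintro rfl
    rw [mul_one] at hk
    exact hne hk.symm
  have hk0 : k ≠ 0 := by
    rintro rfl
    omega
  have h1 : n.minFac ≤ k := Nat.minFac_le_of_dvd (by omega) ⟨finrank ℚ F, by rw [mul_comm]; exact hk⟩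
  rw [Nat.le_div_iff_mul_le (Nat.minFac_pos n)]
  calc finrank ℚ F * n.minFac ≤ finrank ℚ F * k := Nat.mul_le_mul_left _ h1
    _ = n := hk.symm

/-- the field on which two embeddings agree -/
noncomputable def eqField {L : Type} [Field L] [NumberField L] (σ τ : L →ₐ[ℚ] ℂ) : IntermediateField ℚ L :=
  (AlgHom.equalizer σ τ).toIntermediateField (by
    intro x hx
    rw [AlgHom.mem_equalizer] at hx ⊢
    rw [map_inv₀, map_inv₀, hx])

theorem mem_eqField {L : Type} [Field L] [NumberField L] (σ τ : L →ₐ[ℚ] ℂ) (x : L) :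
    x ∈ eqField σ τ ↔ σ x = τ x := by
  unfold eqField
  rfl

theorem exists_gen (L : Type) [Field L] [NumberField L] {n : ℕ} (hn : finrank ℚ L = n)
    (h2 : 2 ≤ n) (H : ℝ) (hH : 1 ≤ H)
    (hbig : 6 ^ n * √|(discr L : ℝ)| < H ^ (n - n / n.minFac)) :
    ∃ α : L, IsIntegral ℤ α ∧ house α ≤ (2 * n * (n * (n ^ 3) ^ n) : ℕ) * H ∧
      Algebra.trace ℚ L α = 0 ∧ IntermediateField.adjoin ℚ {α} = ⊤ := by
  classical
  set t := n / n.minFac + 1 with ht
  have hp : 2 ≤ n.minFac := (Nat.minFac_prime (by omega)).two_le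
  have htn : t ≤ n := by
    have : n / n.minFac ≤ n / 2 := Nat.div_le_div_left hp (by norm_num)
    omega
  obtain ⟨v, hv, hli⟩ := exists_small_indep ℚ L t (by rw [hn]; exact htn) H hH (by
    rw [finrank_self, one_mul, hn, show n + 1 - t = n - n / n.minFac by omega]
    exact hbig)
  set pol : (L →ₐ[ℚ] ℂ) → (L →ₐ[ℚ] ℂ) → ℂ[X] := fun σ τ =>
    ∑ j : Fin t, C (σ (v j) - τ (v j)) * X ^ (j : ℕ) with hpol
  have hpolne : ∀ σ τ, σ ≠ τ → pol σ τ ≠ 0 := by
    intro σ τ hst h0
    have hco : ∀ j : Fin t, σ (v j) = τ (v j) := by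
      intro j
      have h1 := congrArg (fun p : ℂ[X] => p.coeff (j : ℕ)) h0
      simp only [hpol, finsetSum_coeff, coeff_C_mul, coeff_X_pow, coeff_zero] at h1
      rw [Finset.sum_eq_single j] at h1
      · simpa [sub_eq_zero] using h1
      · intro k _ hk
        rw [if_neg (fun h => hk (Fin.ext h.symm)), mul_zero]
      · intro h
        exact absurd (Finset.mem_univ j) h
    have hFt : eqField σ τ ≠ ⊤ := by
      intro h
      apply hst
      ext x
      have : x ∈ eqField σ τ := by rw [h]; exact IntermediateField.mem_top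
      exact (mem_eqField σ τ x).1 this
    have h1 := finrank_proper hn _ hFt
    set w : Fin t → eqField σ τ := fun j => ⟨v j, (mem_eqField σ τ _).2 (hco j)⟩ with hw
    have hw' : LinearIndependent ℚ w := by
      refine LinearIndependent.of_comp (eqField σ τ).val.toLinearMap ?_
      exact hli
    have h3 := hw'.fintype_card_le_finrank
    rw [Fintype.card_fin] at h3
    omega
  have hpdeg : ∀ σ τ, (pol σ τ).natDegree ≤ n := by
    intro σ τ
    refine natDegree_sum_le_of_forall_le _ _ fun j _ => ?_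
    refine (natDegree_C_mul_X_pow_le _ _).trans ?_
    have := j.2
    omega
  set Q := (Finset.univ : Finset ((L →ₐ[ℚ] ℂ) × (L →ₐ[ℚ] ℂ))).filter (fun q => q.1 ≠ q.2) with hQ
  set P : ℂ[X] := ∏ q ∈ Q, pol q.1 q.2 with hP
  have hP0 : P ≠ 0 := by
    rw [hP, Finset.prod_ne_zero_iff]
    intro q hq
    exact hpolne _ _ (Finset.mem_filter.1 hq).2
  have hQc : Q.card ≤ n ^ 2 := by
    refine (Finset.card_filter_le _ _).trans ?_
    rw [Finset.card_univ, Fintype.card_prod, AlgHom.card, hn, sq]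
  have hdeg : P.natDegree < n ^ 3 + 1 := by
    have h1 : P.natDegree ≤ ∑ q ∈ Q, (pol q.1 q.2).natDegree := natDegree_prod_le _ _
    have h3 : ∑ q ∈ Q, (pol q.1 q.2).natDegree ≤ Q.card * n := by
      rw [← smul_eq_mul]
      exact Finset.sum_le_card_nsmul _ _ _ fun q _ => hpdeg _ _
    have h4 : Q.card * n ≤ n ^ 2 * n := Nat.mul_le_mul_right _ hQc
    have h5 : n ^ 2 * n = n ^ 3 := by ring
    omega
  obtain ⟨m, hm, hPm⟩ : ∃ m : ℕ, m ≤ n ^ 3 ∧ P.eval (m : ℂ) ≠ 0 := by
    by_contra hcon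
    push Not at hcon
    apply hP0
    refine eq_zero_of_natDegree_lt_card_of_eval_eq_zero (ι := Fin (n ^ 3 + 1)) P
      (f := fun i => ((i : ℕ) : ℂ)) ?_ ?_ ?_
    · intro i j hij
      exact Fin.ext (Nat.cast_injective hij)
    · intro i
      exact hcon i (by have := i.2; omega)
    · rw [Fintype.card_fin]
      exact hdeg
  set β : L := ∑ j : Fin t, ((m ^ (j : ℕ) : ℕ) : L) * v j with hβ
  have hβeval : ∀ σ τ : L →ₐ[ℚ] ℂ, (pol σ τ).eval (m : ℂ) = σ β - τ β := by
    intro σ τ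
    simp only [hpol, hβ, eval_finsetSum, eval_mul, eval_C, eval_pow, eval_X, map_sum, map_mul,
      map_natCast]
    rw [← Finset.sum_sub_distrib]
    refine Finset.sum_congr rfl fun j _ => ?_
    push_cast
    ring
  have hβinj : ∀ σ τ : L →ₐ[ℚ] ℂ, σ β = τ β → σ = τ := by
    intro σ τ h
    by_contra hst
    apply hPm
    rw [hP, eval_prod, Finset.prod_eq_zero_iff]
    refine ⟨(σ, τ), Finset.mem_filter.2 ⟨Finset.mem_univ _, hst⟩, ?_⟩
    simp only
    rw [hβeval, h, sub_self]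
  have hβint : IsIntegral ℤ β := integral_comb v (fun j => m ^ (j : ℕ)) fun j => (hv j).1
  have hβhouse : house β ≤ t * ((n ^ 3) ^ n : ℕ) * H :=
    house_comb_le v (fun j => m ^ (j : ℕ)) ((n ^ 3) ^ n) H (fun j => by
      have h1 : m ^ (j : ℕ) ≤ (n ^ 3) ^ (j : ℕ) := Nat.pow_le_pow_left hm _
      refine h1.trans (Nat.pow_le_pow_right (by positivity) ?_)
      have := j.2
      omega) fun j => (hv j).2
  have hn0 : (n : L) ≠ 0 := by
    rw [Ne, Nat.cast_eq_zero]
    omega
  obtain ⟨z, hz⟩ : ∃ z : ℤ, (z : ℚ) = Algebra.trace ℚ L β := by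
    have h1 : IsIntegral ℤ (Algebra.trace ℚ L β) := Algebra.isIntegral_trace hβint
    obtain ⟨z, hz⟩ := IsIntegrallyClosed.isIntegral_iff.1 h1
    exact ⟨z, hz⟩
  have hzb : |(z : ℝ)| ≤ n * house β := by
    have h1 := house_trace_le (K := ℚ) (L := L) β
    rw [← hz, house_intCast, hn] at h1
    exact_mod_cast h1
  refine ⟨(n : L) * β - (z : L), ?_, ?_, ?_, ?_⟩
  · refine IsIntegral.sub (IsIntegral.mul ?_ hβint) ?_
    · have : ((n : ℕ) : L) = algebraMap ℤ L (n : ℤ) := by simp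
      rw [this]
      exact isIntegral_algebraMap
    · have : ((z : ℤ) : L) = algebraMap ℤ L z := by simp
      rw [this]
      exact isIntegral_algebraMap
  · have h1 : house ((n : L) * β - (z : L)) ≤ house ((n : L) * β) + house ((-z : ℤ) : L) := by
      rw [sub_eq_add_neg, ← Int.cast_neg]
      exact house_add_le _ _
    rw [house_nat_mul, house_intCast, abs_neg] at h1
    have h3 : |((z : ℤ) : ℝ)| = ((|z| : ℤ) : ℝ) := by push_cast; rfl
    have h4 : house ((n : L) * β - (z : L)) ≤ 2 * n * house β := by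
      have : (((|z| : ℤ)) : ℝ) ≤ n * house β := by rw [← h3]; exact hzb
      linarith
    refine h4.trans ?_
    have ht' : (t : ℝ) ≤ n := by exact_mod_cast htn
    calc 2 * n * house β ≤ 2 * n * (t * ((n ^ 3) ^ n : ℕ) * H) := by gcongr
      _ ≤ 2 * n * (n * ((n ^ 3) ^ n : ℕ) * H) := by gcongr
      _ = _ := by push_cast; ring
  · have h1 : Algebra.trace ℚ L ((n : L) * β) = n * Algebra.trace ℚ L β := by
      have : (n : L) * β = (n : ℚ) • β := by
        rw [Algebra.smul_def]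
        simp
      rw [this, map_smul, smul_eq_mul]
    have h3 : Algebra.trace ℚ L (z : L) = n * (z : ℚ) := by
      have : (z : L) = algebraMap ℚ L (z : ℚ) := by simp
      rw [this, Algebra.trace_algebraMap, hn, nsmul_eq_mul]
    rw [map_sub, h1, h3, ← hz, sub_self]
  · rw [Field.primitive_element_iff_algHom_eq_of_eval' ℚ ℂ
      (fun x => IsAlgClosed.splits _)]
    intro σ τ h
    apply hβinj
    simp only [map_sub, map_mul, map_natCast, map_intCast] at h
    have hn0' : (n : ℂ) ≠ 0 := by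
      rw [Ne, Nat.cast_eq_zero]
      omega
    exact mul_left_cancel₀ hn0' (sub_left_injective h)

/-- the data of a field -/
theorem field_data {n : ℕ} (h2 : 2 ≤ n) (T : ℝ) (hT : 1 ≤ T)
    (L : IntermediateField ℚ (AlgebraicClosure ℚ)) [NumberField L] (hn : finrank ℚ L = n)
    (α : L) (hα : IsIntegral ℤ α) (hh : house α ≤ T) (htr : Algebra.trace ℚ L α = 0)
    (hgen : IntermediateField.adjoin ℚ {α} = ⊤) :
    ∃ g : Fin (n - 1) → ℤ, (∀ i, |(g i : ℝ)| ≤ 2 ^ n * T ^ (n - (i : ℕ))) ∧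
      aeval (α : AlgebraicClosure ℚ)
        (X ^ n + ∑ i : Fin (n - 1), C (g i) * X ^ (i : ℕ) : ℤ[X]) = 0 ∧
      IntermediateField.adjoin ℚ {(α : AlgebraicClosure ℚ)} = L := by
  have hαQ : IsIntegral ℚ α := Algebra.IsIntegral.isIntegral α
  have hmon : (minpoly ℤ α).Monic := minpoly.monic hα
  have hmap : minpoly ℚ α = (minpoly ℤ α).map (algebraMap ℤ ℚ) :=
    minpoly.isIntegrallyClosed_eq_field_fractions' ℚ hα
  have hdegQ : (minpoly ℚ α).natDegree = n := by
    rw [(Field.primitive_element_iff_minpoly_natDegree_eq ℚ α).1 hgen, hn]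
  have hdeg : (minpoly ℤ α).natDegree = n := by
    rw [← hdegQ, hmap, hmon.natDegree_map]
  have hcoQ : ∀ i, (minpoly ℚ α).coeff i = ((minpoly ℤ α).coeff i : ℚ) := by
    intro i
    rw [hmap, coeff_map]
    rfl
  have hnext : (minpoly ℤ α).coeff (n - 1) = 0 := by
    have h1 := trace_eq_finrank_mul_minpoly_nextCoeff ℚ α
    rw [htr, hgen, IntermediateField.finrank_top] at h1
    have h3 : (minpoly ℚ α).nextCoeff = 0 := by simpa using h1.symm
    rw [nextCoeff_of_natDegree_pos (by rw [hdegQ]; omega), hdegQ, hcoQ] at h3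
    exact_mod_cast h3
  refine ⟨fun i => (minpoly ℤ α).coeff i, ?_, ?_, ?_⟩
  · intro i
    have h1 := coeff_le_of_roots_le (p := minpoly ℚ α) (f := algebraMap ℚ ℂ) (B := T) (i : ℕ)
      (minpoly.monic hαQ) (IsAlgClosed.splits _) (by
        intro z hz
        have hz' : z ∈ (minpoly ℚ α).rootSet ℂ := by
          rw [mem_rootSet]
          refine ⟨minpoly.ne_zero hαQ, ?_⟩
          have := (mem_roots'.1 hz).2
          rwa [IsRoot.def, eval_map_algebraMap] at this
        rw [← NumberField.Embeddings.range_eval_eq_rootSet_minpoly] at hz'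
        obtain ⟨φ, rfl⟩ := hz'
        exact (norm_embedding_le_house α φ).trans hh)
    rw [coeff_map, hcoQ, hdegQ] at h1
    have h3 : ‖(algebraMap ℚ ℂ) (((minpoly ℤ α).coeff (i : ℕ) : ℤ) : ℚ)‖ =
        |(((minpoly ℤ α).coeff (i : ℕ) : ℤ) : ℝ)| := by
      rw [map_intCast, Complex.norm_intCast]
    rw [h3] at h1
    refine h1.trans ?_
    rw [mul_comm]
    have h4 : (n.choose (i : ℕ) : ℝ) ≤ 2 ^ n := by
      exact_mod_cast Nat.choose_le_two_pow n i
    gcongr
  · have hpoly : (X ^ n + ∑ i : Fin (n - 1), C ((minpoly ℤ α).coeff i) * X ^ (i : ℕ) : ℤ[X]) =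
        minpoly ℤ α := by
      conv_rhs => rw [(minpoly ℤ α).as_sum_range_C_mul_X_pow, hdeg,
        Finset.sum_range_succ, show n = (n - 1) + 1 by omega, Finset.sum_range_succ,
        show n - 1 + 1 = n by omega, hnext]
      rw [Fin.sum_univ_eq_sum_range (fun i => C ((minpoly ℤ α).coeff i) * X ^ i) (n - 1)]
      have : (minpoly ℤ α).coeff n = 1 := by
        rw [← hdeg]
        exact hmon
      rw [this]
      simp
      ring
    rw [hpoly]
    have h1 := congrArg (algebraMap L (AlgebraicClosure ℚ)) (minpoly.aeval ℤ α)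
    rw [map_zero, ← aeval_algebraMap_apply] at h1
    exact h1
  · have hle : IntermediateField.adjoin ℚ {(α : AlgebraicClosure ℚ)} ≤ L := by
      rw [IntermediateField.adjoin_simple_le_iff]
      exact α.2
    have hmin : minpoly ℚ (α : AlgebraicClosure ℚ) = minpoly ℚ α :=
      minpoly.algebraMap_eq (algebraMap L (AlgebraicClosure ℚ)).injective α
    have hfinL : FiniteDimensional ℚ L := inferInstance
    refine IntermediateField.eq_of_le_of_finrank_eq hle ?_
    have hint : IsIntegral ℤ (α : AlgebraicClosure ℚ) :=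
      hα.map (IsScalarTower.toAlgHom ℤ L (AlgebraicClosure ℚ))
    rw [IntermediateField.adjoin.finrank hint.tower_top, hmin, hdegQ]
    exact hn.symm

/-- the polynomials which occur -/
noncomputable def pol (n : ℕ) (g : Fin (n - 1) → ℤ) : ℤ[X] :=
  X ^ n + ∑ i : Fin (n - 1), C (g i) * X ^ (i : ℕ)

theorem pol_deg {n : ℕ} (h2 : 2 ≤ n) (g : Fin (n - 1) → ℤ) :
    (∑ i : Fin (n - 1), C (g i) * X ^ (i : ℕ) : ℤ[X]).degree < n := by
  refine lt_of_le_of_lt (degree_sum_le _ _) ?_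
  rw [Finset.sup_lt_iff (by exact_mod_cast WithBot.bot_lt_coe n)]
  intro i _
  refine lt_of_le_of_lt (degree_C_mul_X_pow_le _ _) ?_
  have := i.2
  exact_mod_cast (by omega : (i : ℕ) < n)

theorem pol_monic {n : ℕ} (h2 : 2 ≤ n) (g : Fin (n - 1) → ℤ) : (pol n g).Monic :=
  monic_X_pow_add (pol_deg h2 g)

theorem pol_natDegree {n : ℕ} (h2 : 2 ≤ n) (g : Fin (n - 1) → ℤ) : (pol n g).natDegree = n := by
  unfold pol
  rw [natDegree_add_eq_left_of_degree_lt]
  · exact natDegree_X_pow n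
  · rw [degree_X_pow]
    exact pol_deg h2 g

theorem fields_count {n : ℕ} (h2 : 2 ≤ n) (T : ℝ) (hT : 1 ≤ T)
    (S : Set (IntermediateField ℚ (AlgebraicClosure ℚ)))
    (hS : ∀ L ∈ S, ∃ (g : Fin (n - 1) → ℤ) (a : AlgebraicClosure ℚ),
      (∀ i, |(g i : ℝ)| ≤ 2 ^ n * T ^ (n - (i : ℕ))) ∧ aeval a (pol n g) = 0 ∧
        IntermediateField.adjoin ℚ {a} = L) :
    S.Finite ∧ (S.ncard : ℝ) ≤ n * (3 * 2 ^ n) ^ (n - 1) * T ^ (∑ i : Fin (n - 1), (n - (i : ℕ))) := by
  classical
  set N : Fin (n - 1) → ℕ := fun i => ⌊(2 : ℝ) ^ n * T ^ (n - (i : ℕ))⌋₊ with hN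
  set Box : Finset (Fin (n - 1) → ℤ) := Fintype.piFinset fun i =>
    Finset.Icc (-(N i : ℤ)) (N i : ℤ) with hBox
  set R : Finset (AlgebraicClosure ℚ) := Box.biUnion fun g =>
    ((pol n g).aroots (AlgebraicClosure ℚ)).toFinset with hR
  have hsub : S ⊆ (fun a => IntermediateField.adjoin ℚ {a}) '' (R : Set (AlgebraicClosure ℚ)) := by
    intro L hL
    obtain ⟨g, a, hg, ha, hLa⟩ := hS L hL
    refine ⟨a, ?_, hLa⟩
    rw [Finset.mem_coe, hR, Finset.mem_biUnion]
    refine ⟨g, ?_, ?_⟩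
    · rw [hBox, Fintype.mem_piFinset]
      intro i
      rw [Finset.mem_Icc, ← abs_le]
      have h1 : (g i).natAbs ≤ N i := by
        rw [hN]
        refine Nat.le_floor ?_
        rw [Nat.cast_natAbs, Int.cast_abs]
        exact hg i
      rw [Int.abs_eq_natAbs]
      exact_mod_cast h1
    · rw [Multiset.mem_toFinset, mem_aroots]
      exact ⟨(pol_monic h2 g).ne_zero, ha⟩
  have hfin : S.Finite := (R.finite_toSet.image _).subset hsub
  refine ⟨hfin, ?_⟩
  have h1 : S.ncard ≤ R.card := by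
    refine (Set.ncard_le_ncard hsub (R.finite_toSet.image _)).trans ?_
    refine (Set.ncard_image_le R.finite_toSet).trans ?_
    rw [Set.ncard_coe_finset]
  have h3 : R.card ≤ Box.card * n := by
    refine Finset.card_biUnion_le_card_mul _ _ _ fun g _ => ?_
    refine (Multiset.toFinset_card_le _).trans ?_
    have h4 := card_roots' ((pol n g).map (algebraMap ℤ (AlgebraicClosure ℚ)))
    rw [(pol_monic h2 g).natDegree_map, pol_natDegree h2 g] at h4
    exact h4
  have h5 : (Box.card : ℝ) ≤ (3 * 2 ^ n) ^ (n - 1) * T ^ (∑ i : Fin (n - 1), (n - (i : ℕ))) := by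
    rw [hBox, Fintype.card_piFinset]
    push_cast
    have h6 : ∀ i : Fin (n - 1), (((Finset.Icc (-(N i : ℤ)) (N i : ℤ)).card : ℕ) : ℝ) ≤
        3 * 2 ^ n * T ^ (n - (i : ℕ)) := by
      intro i
      rw [Int.card_Icc]
      have h7 : (((N i : ℤ) + 1 - -(N i : ℤ)).toNat : ℝ) = 2 * (N i : ℝ) + 1 := by
        have h8 : ((N i : ℤ) + 1 - -(N i : ℤ)).toNat = 2 * N i + 1 := by omega
        rw [h8]
        push_cast
        ring
      rw [h7]
      have h9 : (N i : ℝ) ≤ (2 : ℝ) ^ n * T ^ (n - (i : ℕ)) := Nat.floor_le (by positivity)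
      have h10 : (1 : ℝ) ≤ (2 : ℝ) ^ n * T ^ (n - (i : ℕ)) :=
        one_le_mul_of_one_le_of_one_le (one_le_pow₀ (by norm_num)) (one_le_pow₀ hT)
      linarith
    refine (Finset.prod_le_prod (fun i _ => Nat.cast_nonneg _) fun i _ => h6 i).trans (le_of_eq ?_)
    rw [Finset.prod_mul_distrib, Finset.prod_const, Finset.card_univ, Fintype.card_fin,
      Finset.prod_pow_eq_pow_sum]
  calc (S.ncard : ℝ) ≤ (Box.card * n : ℕ) := by exact_mod_cast h1.trans h3
    _ = n * Box.card := by push_cast; ring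
    _ ≤ n * ((3 * 2 ^ n) ^ (n - 1) * T ^ (∑ i : Fin (n - 1), (n - (i : ℕ)))) :=
        mul_le_mul_of_nonneg_left h5 (Nat.cast_nonneg _)
    _ = _ := by ring

theorem sum_fin (n : ℕ) (h2 : 2 ≤ n) :
    2 * ∑ i : Fin (n - 1), (n - (i : ℕ)) = (n + 2) * (n - 1) := by
  obtain ⟨m, rfl⟩ : ∃ m, n = m + 2 := ⟨n - 2, by omega⟩
  rw [show m + 2 - 1 = m + 1 by omega]
  rw [Fin.sum_univ_eq_sum_range (fun i => m + 2 - i) (m + 1)]
  have h1 : ∀ k : ℕ, ∀ c : ℕ, 2 * ∑ i ∈ Finset.range (k + 1), (k + 1 + c - i) =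
      (k + 2 + 2 * c) * (k + 1) := by
    intro k
    induction k with
    | zero => intro c; simp; ring
    | succ k ih =>
      intro c
      rw [Finset.sum_range_succ]
      have h2 : ∑ i ∈ Finset.range (k + 1), (k + 1 + 1 + c - i) =
          ∑ i ∈ Finset.range (k + 1), (k + 1 + (c + 1) - i) :=
        Finset.sum_congr rfl fun i _ => by omega
      rw [h2, mul_add, ih (c + 1)]
      have h3 : k + 1 + 1 + c - (k + 1) = c + 1 := by omega
      rw [h3]
      ring
  have := h1 m 1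
  rw [show m + 1 + 1 = m + 2 by omega] at this
  rw [this]

/-- the exponent -/
noncomputable def eS (n : ℕ) : ℝ := (((n + 2) * (n - 1) : ℕ) : ℝ) / (4 * ((n - n / n.minFac : ℕ) : ℝ))

/-- **A bound of Schmidt's type.** -/
theorem schmidt {n : ℕ} (h2 : 2 ≤ n) : ∃ C : ℝ, 0 < C ∧ ∀ X : ℝ, 1 ≤ X →
    (FS ℚ n X).Finite ∧ ((FS ℚ n X).ncard : ℝ) ≤ C * X ^ eS n := by
  have hp : 2 ≤ n.minFac := (Nat.minFac_prime (by omega)).two_le
  set q := n - n / n.minFac with hq
  have hq0 : 0 < q := by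
    have : n / n.minFac ≤ n / 2 := Nat.div_le_div_left hp (by norm_num)
    omega
  set s := ∑ i : Fin (n - 1), (n - (i : ℕ)) with hs
  have hs2 : 2 * s = (n + 2) * (n - 1) := sum_fin n h2
  set A : ℝ := ((2 * n * (n * (n ^ 3) ^ n) : ℕ) : ℝ) with hA
  have hA1 : 1 ≤ A := by
    rw [hA]
    have : 1 ≤ 2 * n * (n * (n ^ 3) ^ n) := Nat.one_le_iff_ne_zero.2 (by positivity)
    exact_mod_cast this
  refine ⟨n * (3 * 2 ^ n) ^ (n - 1) * (A ^ s * ((7 : ℝ) ^ n) ^ ((s : ℝ) / q)), by positivity, ?_⟩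
  intro X hX
  set H : ℝ := Hf 1 n q X with hH
  have hH1 : 1 ≤ H := one_le_Hf 1 n q X hX
  have hT : 1 ≤ A * H := one_le_mul_of_one_le_of_one_le hA1 hH1
  have hcount := fields_count h2 (A * H) hT (FS ℚ n X) (by
    rintro L ⟨hn, hNF, hD⟩
    have hD' : |(discr L : ℝ)| ≤ X := by
      rw [← Int.cast_abs]; exact hD
    have hbig := Hf_spec (K := ℚ) (L := L) hn (finrank_self ℚ) q hq0 X hX hD'
    have hnL : finrank ℚ L = n := hn
    rw [hnL, one_mul] at hbig
    obtain ⟨α, h3, h4, h5, h6⟩ := exists_gen L hnL h2 H hH1 hbig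
    obtain ⟨g, h7, h8, h9⟩ := field_data h2 (A * H) hT L hn α h3 h4 h5 h6
    exact ⟨g, α, h7, h8, h9⟩)
  refine ⟨hcount.1, hcount.2.trans (le_of_eq ?_)⟩
  have hHs : H ^ s = ((7 : ℝ) ^ n) ^ ((s : ℝ) / q) * X ^ eS n := by
    rw [hH, Hf, one_mul, one_mul, ← Real.rpow_natCast, ← Real.rpow_mul (by positivity),
      Real.mul_rpow (by positivity) (by positivity), Real.sqrt_eq_rpow,
      ← Real.rpow_mul (by linarith)]
    congr 2
    · ring
    · unfold eS
      rw [← hs2, ← hq]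
      push_cast
      have : (q : ℝ) ≠ 0 := by exact_mod_cast hq0.ne'
      field_simp
      ring
  rw [mul_pow A H, hHs]
  ring

end Pool.Agent.W222.UABC
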