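import Mathlib
import Pool.Agent.W222.UABC.Core
import Pool.Agent.W222.UABC.Poly
import Pool.Agent.W222.UABC.Schmidt

/-!
# Few points violating the uniform abc inequality
-/

set_option autoImplicit false

namespace Pool.Agent.W222.UABC

open NumberField IsDedekindDomain Finset Pool.Agent.H691R3 Pool.Agent.W223.AK
open Pool.Agent.W301.Lin

theorem good_of {n : ℕ} {X R : ℝ} (K : IntermediateField ℚ (AlgebraicClosure ℚ)) [NumberField K]
    (x : K) (hK : Module.finrank ℚ K = n) (h0 : x ≠ 0) (h1 : x ≠ 1)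
    (h2 : (n : ℝ) * height ![x, 1 - x, -1] ≤ X) (h3 : (n : ℝ) * conductor ![x, 1 - x, -1] ≤ R) :
    Good n X R ((x : AlgebraicClosure ℚ) / (1 - (x : AlgebraicClosure ℚ))) := by
  have h1' : (1 : K) - x ≠ 0 := sub_ne_zero.2 h1.symm
  set a : Fin 3 → K := ![x, 1 - x, -1] with ha
  have ha0 : a 0 = x := rfl
  have ha1 : a 1 = 1 - x := rfl
  have ha2 : a 2 = -1 := rfl
  have hs : a 0 + a 1 + a 2 = 0 := by rw [ha0, ha1, ha2]; ring
  have hb := H3_bounds (x := a) (by rw [ha1]; exact h1') hs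
  have hPt : Pt (a 0 / a 1) := by
    refine ⟨div_ne_zero (by rw [ha0]; exact h0) (by rw [ha1]; exact h1'), ?_⟩
    rw [ha0, ha1]
    have : x / (1 - x) + 1 = 1 / (1 - x) := by
      field_simp
      ring
    rw [this]
    exact div_ne_zero one_ne_zero h1'
  obtain ⟨P, hP⟩ := exists_isP ∅ hPt
  have hR := R3_eq (T := ∅) (T' := ∅) (fun v => by simp) (x := a) (by rw [ha1]; exact h1') hs hP
  rw [← hK, H3_height] at h2
  rw [← hK, R3_empty, hR] at h3
  refine ⟨K, inferInstance, a 0 / a 1, ?_, hK, hPt, hb.1.trans h2, P, hP, h3⟩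
  rw [ha0, ha1]
  push_cast
  rfl

theorem one_le_eS {n : ℕ} (hn : 2 ≤ n) : 1 ≤ eS n := by
  have hp : 2 ≤ n.minFac := (Nat.minFac_prime (by omega)).two_le
  have h0 : n / n.minFac ≤ n / 2 := Nat.div_le_div_left hp (by norm_num)
  have h1 : 1 ≤ n / n.minFac :=
    (Nat.one_le_div_iff (Nat.minFac_pos n)).2 (Nat.minFac_le (by omega))
  unfold eS
  rw [one_le_div (by
    have : 0 < n - n / n.minFac := by omega
    have h2 : (0 : ℝ) < ((n - n / n.minFac : ℕ) : ℝ) := by exact_mod_cast this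
    positivity)]
  have h3 : 4 * (n - n / n.minFac) ≤ (n + 2) * (n - 1) := by
    have h4 : n - n / n.minFac ≤ n - 1 := by omega
    exact Nat.mul_le_mul (by omega) h4
  exact_mod_cast h3

/-- the violations over the fields of degree `n` -/
theorem viol_all : ∃ e : ℕ → ℝ,
    (∀ c : ℝ, 1 / (8 * (Real.log 2) ^ 2) < c →
      ∀ᶠ n : ℕ in Filter.atTop, e n ≤ c * (Real.log n) ^ 2) ∧
    (∀ n : ℕ, 2 ≤ n → e n ≤ eS n) ∧
    ∀ n : ℕ, 2 ≤ n → ∀ κ c δ : ℝ, 0 < κ → 0 < δ →
      ∃ M : ℝ, ∀ B : ℝ, 1 ≤ B → (Viol n κ c B).Finite ∧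
        ((Viol n κ c B).ncard : ℝ) ≤ M * B ^ ((n : ℝ) * e n / κ + δ) := by
  obtain ⟨e, h1, h2, h3⟩ := linnik
  refine ⟨fun n => min (e n) (eS n), fun c hc => ?_, fun n _ => min_le_right _ _,
    fun n hn κ c δ hκ hδ => ?_⟩
  · filter_upwards [h1 c hc] with n hn
    exact (min_le_left _ _).trans hn
  · simp only
    rcases le_total (e n) (eS n) with h | h
    · rw [min_eq_left h]
      obtain ⟨C, hC, hF⟩ := h3 n hn
      exact viol_card n (by omega) (e n) (h2 n) C hC hF κ c δ hκ hδ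
    · rw [min_eq_right h]
      obtain ⟨C, hC, hF⟩ := schmidt hn
      have := one_le_eS hn
      exact viol_card n (by omega) (eS n) (by linarith) C hC hF κ c δ hκ hδ

/-- injectivity of the change of coordinates -/
theorem inj_frac (E : Finset (AlgebraicClosure ℚ)) (h : ∀ x ∈ E, x ≠ 1) :
    Set.InjOn (fun x : AlgebraicClosure ℚ => x / (1 - x)) (E : Set _) := by
  intro x hx y hy hxy
  have h1 : (1 : AlgebraicClosure ℚ) - x ≠ 0 := sub_ne_zero.2 (h x (Finset.mem_coe.1 hx)).symm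
  have h2 : (1 : AlgebraicClosure ℚ) - y ≠ 0 := sub_ne_zero.2 (h y (Finset.mem_coe.1 hy)).symm
  simp only at hxy
  rw [div_eq_div_iff h1 h2] at hxy
  linear_combination hxy

/-- the points violating the inequality in some field of degree `n` -/
theorem points_bound (n : ℕ) (hn : 2 ≤ n) (κ c δ θ : ℝ) (hκ : 0 < κ) (hδ : 0 < δ) (hθ : 0 ≤ θ)
    (hθ' : κ * ((n : ℝ) - 2) + 1 / 3 ≤ θ * (eS n + 1 / 3)) :
    ∃ M : ℝ, ∀ B : ℝ, 1 ≤ B → (Prod.snd '' Viol n κ c B).Finite ∧
      ((Prod.snd '' Viol n κ c B).ncard : ℝ) ≤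
        M * B ^ ((n : ℝ) / κ * (2 / 3 + (eS n - 2 / 3) * θ) + δ) := by
  classical
  have hn0 : (0 : ℝ) < n := by exact_mod_cast (by omega : 0 < n)
  have he1 := one_le_eS hn
  set e : ℝ := eS n with he
  set φ : ℝ := 2 / 3 + (e - 2 / 3) * θ with hφ
  set ε : ℝ := δ / (2 * n) with hε
  have hε0 : 0 < ε := by positivity
  obtain ⟨C, hC, hF⟩ := schmidt hn
  obtain ⟨D, hD, hfew⟩ := few_x n hn hε0
  obtain ⟨D1, hD1, hcore⟩ := pairs_core n e (by linarith) C hC hF hε0
  obtain ⟨D2, hD2, hlin⟩ := lin_exp n κ c hκ hε0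
  refine ⟨(D + D1 * ((θ + 1) * D2)) * Real.exp (φ * (n * |c| / κ)), ?_⟩
  intro B hB
  have hB0 : 0 < B := by linarith
  have hlB : 0 ≤ Real.log B := Real.log_nonneg hB
  set X : ℝ := n * Real.log B with hX
  have hX0 : 0 ≤ X := by positivity
  set Y : ℝ := (X + n * |c|) / κ with hY
  have hY0 : 0 ≤ Y := by positivity
  have hXY : X ≤ κ * Y := by
    rw [hY, mul_div_cancel₀ _ hκ.ne']
    have : 0 ≤ n * |c| := by positivity
    linarith
  refine ncard_le_of _ _ fun E hE => ?_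
  -- the field of each point
  have hex : ∀ x : AlgebraicClosure ℚ, ∃ K : IntermediateField ℚ (AlgebraicClosure ℚ),
      x ∈ E → (K, x) ∈ Viol n κ c B := by
    intro x
    by_cases hx : x ∈ E
    · obtain ⟨⟨K, x'⟩, hp, hx'⟩ := hE (Finset.mem_coe.2 hx)
      simp only at hx'
      subst hx'
      exact ⟨K, fun _ => hp⟩
    · exact ⟨⊥, fun h => absurd h hx⟩
  choose k hk using hex
  set E1 := E.filter fun x => θ * Y < dd (k x) with hE1
  set E2 := E.filter fun x => ¬ θ * Y < dd (k x) with hE2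
  have hsplit : E.card = E1.card + E2.card :=
    (Finset.card_filter_add_card_filter_not (s := E) (fun x => θ * Y < dd (k x))).symm
  have hdat : ∀ x ∈ E1, x ≠ 1 ∧ Good n X ((1 - θ) * Y) (x / (1 - x)) := by
    intro x hx
    obtain ⟨hxE, hxd⟩ := Finset.mem_filter.1 hx
    obtain ⟨hnf, t, ht, hfin, ht0, ht1, hh, hc, hd, -⟩ :=
      viol_PD n (by omega) κ c B hκ (hk x hxE)
    simp only at ht hfin hnf
    refine ⟨?_, ?_⟩
    · rw [← ht]
      intro h
      apply ht1
      exact_mod_cast h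
    · rw [← ht]
      refine good_of (k x) t hfin ht0 ht1 hh (le_trans hc ?_)
      rw [← hX, ← hY]
      simp only
      linarith
  have hc1 : (E1.card : ℝ) ≤ D * Real.exp (φ * Y + ε * X) := by
    rw [← Finset.card_image_of_injOn (inj_frac E1 fun x hx => (hdat x hx).1)]
    refine (hfew X ((1 - θ) * Y) _ hX0 ?_).trans ?_
    · intro y hy
      obtain ⟨x, hx, rfl⟩ := Finset.mem_image.1 hy
      exact (hdat x hx).2
    · refine mul_le_mul_of_nonneg_left (Real.exp_le_exp.2 ?_) hD.le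
      have h1 : ((n - 2 : ℕ) : ℝ) = (n : ℝ) - 2 := by
        rw [Nat.cast_sub hn]
        norm_num
      rw [h1]
      have h2 : (0 : ℝ) ≤ (n : ℝ) - 2 := by
        rw [← h1]
        positivity
      have h3 : ((n : ℝ) - 2) * X ≤ ((n : ℝ) - 2) * (κ * Y) := mul_le_mul_of_nonneg_left hXY h2
      have h4 : (κ * ((n : ℝ) - 2) + 1 / 3) * Y ≤ θ * (e + 1 / 3) * Y :=
        mul_le_mul_of_nonneg_right hθ' hY0
      rw [hφ]
      nlinarith
  have hc2 : (E2.card : ℝ) ≤
      D1 * ((θ + 1) * (D2 * Real.exp (ε * X))) * Real.exp (φ * Y + ε * X) := by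
    have hinj : Set.InjOn (fun x : AlgebraicClosure ℚ => (k x, x)) (E2 : Set _) := by
      intro x _ y _ h
      exact (Prod.ext_iff.1 h).2
    rw [← Finset.card_image_of_injOn hinj]
    refine (hcore X Y (θ * Y) hX0 (by positivity) _ ?_).trans ?_
    · intro p hp
      obtain ⟨x, hx, rfl⟩ := Finset.mem_image.1 hp
      obtain ⟨hxE, hxd⟩ := Finset.mem_filter.1 hx
      obtain ⟨hnf, t, ht, hfin, ht0, ht1, hh, hc, hd, -⟩ :=
        viol_PD n (by omega) κ c B hκ (hk x hxE)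
      exact ⟨hnf, t, ht, hfin, ht0, ht1, hh, hc, hd, not_lt.1 hxd⟩
    · have h1 : Y + 1 ≤ D2 * Real.exp (ε * X) := hlin X hX0
      have h3 : θ * Y + 1 ≤ (θ + 1) * (D2 * Real.exp (ε * X)) := by
        have : (θ + 1) * (Y + 1) ≤ (θ + 1) * (D2 * Real.exp (ε * X)) :=
          mul_le_mul_of_nonneg_left h1 (by linarith)
        nlinarith
      have h2 : (2 : ℝ) / 3 * Y + ε * X + (e - 2 / 3) * (θ * Y) = φ * Y + ε * X := by
        rw [hφ]; ring
      rw [h2]
      gcongr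
  have hXe : Real.exp (φ * Y + ε * X) ≤ Real.exp (φ * Y + 2 * (ε * X)) := by
    apply Real.exp_le_exp.2
    have : 0 ≤ ε * X := by positivity
    linarith
  calc (E.card : ℝ) = E1.card + E2.card := by rw [hsplit]; push_cast; ring
    _ ≤ D * Real.exp (φ * Y + ε * X) +
          D1 * ((θ + 1) * (D2 * Real.exp (ε * X))) * Real.exp (φ * Y + ε * X) :=
        add_le_add hc1 hc2
    _ = D * Real.exp (φ * Y + ε * X) +
          D1 * ((θ + 1) * D2) * (Real.exp (ε * X) * Real.exp (φ * Y + ε * X)) := by ring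
    _ = D * Real.exp (φ * Y + ε * X) +
          D1 * ((θ + 1) * D2) * Real.exp (φ * Y + 2 * (ε * X)) := by
        rw [← Real.exp_add]
        congr 3
        ring
    _ ≤ D * Real.exp (φ * Y + 2 * (ε * X)) +
          D1 * ((θ + 1) * D2) * Real.exp (φ * Y + 2 * (ε * X)) := by gcongr
    _ = (D + D1 * ((θ + 1) * D2)) * Real.exp (φ * Y + 2 * (ε * X)) := by ring
    _ = (D + D1 * ((θ + 1) * D2)) * Real.exp (φ * (n * |c| / κ)) *
          B ^ ((n : ℝ) / κ * φ + δ) := by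
        rw [Real.rpow_def_of_pos hB0, mul_assoc (D + _), ← Real.exp_add]
        congr 2
        rw [hY, hX, hε]
        field_simp
        ring

end Pool.Agent.W222.UABC
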